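import Mathlib

/-!
Matrices over the free ring on two generators, evaluated at pairs of square matrices.
-/

set_option autoImplicit false
set_option linter.unusedSectionVars false

open Matrix

namespace Pool.Agent.H413Z

/-- The free ring on two generators. -/
abbrev FP : Type := FreeRing Bool

/-- Evaluation of the free ring at a pair of elements. -/
def pt {S : Type} [Ring S] (x y : S) : FP →+* S := FreeRing.lift (fun b => cond b x y)

@[simp] lemma pt_true {S : Type} [Ring S] (x y : S) : pt x y (FreeRing.of true) = x :=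
  FreeRing.lift_of _ _

@[simp] lemma pt_false {S : Type} [Ring S] (x y : S) : pt x y (FreeRing.of false) = y :=
  FreeRing.lift_of _ _

lemma pt_ext {S : Type} [Ring S] {f g : FP →+* S}
    (h1 : f (FreeRing.of true) = g (FreeRing.of true))
    (h2 : f (FreeRing.of false) = g (FreeRing.of false)) : f = g := by
  apply FreeRing.hom_ext
  intro b
  cases b
  · exact h2
  · exact h1

lemma comp_pt {S S' : Type} [Ring S] [Ring S'] (f : S →+* S') (x y : S) :
    f.comp (pt x y) = pt (f x) (f y) := by
  apply pt_ext <;> simp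

section cdet

variable {n n' N N' K K' : Type} [Fintype n] [DecidableEq n] [Fintype n'] [DecidableEq n']
  [Fintype N] [DecidableEq N] [Fintype N'] [DecidableEq N'] [CommRing K] [CommRing K']

/-- Determinant of a matrix of matrices. -/
def cdet (M : Matrix n n (Matrix N N K)) : K := (Matrix.comp n n N N K M).det

/-- Adjugate of a matrix of matrices. -/
def cadj (M : Matrix n n (Matrix N N K)) : Matrix n n (Matrix N N K) :=
  (Matrix.comp n n N N K).symm (Matrix.comp n n N N K M).adjugate

lemma cdet_mul (M M' : Matrix n n (Matrix N N K)) : cdet (M * M') = cdet M * cdet M' := by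
  unfold cdet
  rw [← det_mul]
  congr 1
  exact (Matrix.compRingEquiv n N K).map_mul M M'

lemma comp_smul_one (d : K) :
    Matrix.comp n n N N K (d • (1 : Matrix n n (Matrix N N K))) = d • 1 := by
  have : Matrix.comp n n N N K (d • (1 : Matrix n n (Matrix N N K))) =
    d • Matrix.comp n n N N K 1 := rfl
  rw [this, Matrix.comp_one]

lemma cadj_mul (M : Matrix n n (Matrix N N K)) : cadj M * M = cdet M • 1 := by
  apply (Matrix.compRingEquiv n N K).injective
  rw [map_mul]
  simp only [compRingEquiv_apply, cadj, Equiv.apply_symm_apply, comp_smul_one, adjugate_mul, cdet]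

lemma mul_cadj (M : Matrix n n (Matrix N N K)) : M * cadj M = cdet M • 1 := by
  apply (Matrix.compRingEquiv n N K).injective
  rw [map_mul]
  simp only [compRingEquiv_apply, cadj, Equiv.apply_symm_apply, comp_smul_one, mul_adjugate, cdet]

lemma cdet_smul_one (d : K) :
    cdet (d • (1 : Matrix n n (Matrix N N K))) = d ^ Fintype.card (n × N) := by
  unfold cdet
  rw [comp_smul_one, det_smul, det_one, mul_one]

lemma cdet_map (f : K →+* K') (M : Matrix n n (Matrix N N K)) :
    cdet (M.map f.mapMatrix) = f (cdet M) := by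
  unfold cdet
  rw [RingHom.map_det]
  rfl

lemma cadj_map (f : K →+* K') (M : Matrix n n (Matrix N N K)) :
    cadj (M.map f.mapMatrix) = (cadj M).map f.mapMatrix := by
  have h := f.map_adjugate (Matrix.comp n n N N K M)
  have h2 : Matrix.comp n n N N K' (M.map f.mapMatrix) =
    f.mapMatrix (Matrix.comp n n N N K M) := rfl
  unfold cadj
  rw [h2, ← h]
  rfl

lemma cdet_reindex_inner (e : N ≃ N') (M : Matrix n n (Matrix N N K)) :
    cdet (M.map (Matrix.reindexAlgEquiv K K e)) = cdet M := by
  unfold cdet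
  rw [← det_reindex_self (Equiv.prodCongr (Equiv.refl n) e) (Matrix.comp n n N N K M)]
  rfl

lemma cdet_reindex_outer (e : n ≃ n') (M : Matrix n n (Matrix N N K)) :
    cdet (Matrix.reindex e e M) = cdet M := by
  unfold cdet
  rw [← det_reindex_self (Equiv.prodCongr e (Equiv.refl N)) (Matrix.comp n n N N K M)]
  rfl

lemma cdet_upper (A : Matrix n n (Matrix N N K)) (B : Matrix n n' (Matrix N N K))
    (D : Matrix n' n' (Matrix N N K)) : cdet (fromBlocks A B 0 D) = cdet A * cdet D := by
  unfold cdet
  rw [← det_fromBlocks_zero₂₁ _ (Matrix.comp n n' N N K B),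
    ← det_reindex_self (Equiv.sumProdDistrib n n' N)]
  congr 1
  ext i j
  rcases i with ⟨i, a⟩ | ⟨i, a⟩ <;> rcases j with ⟨j, b⟩ | ⟨j, b⟩ <;> rfl

lemma cdet_lower (A : Matrix n n (Matrix N N K)) (C : Matrix n' n (Matrix N N K))
    (D : Matrix n' n' (Matrix N N K)) : cdet (fromBlocks A 0 C D) = cdet A * cdet D := by
  unfold cdet
  rw [← det_fromBlocks_zero₁₂ _ (Matrix.comp n' n N N K C),
    ← det_reindex_self (Equiv.sumProdDistrib n n' N)]
  congr 1
  ext i j
  rcases i with ⟨i, a⟩ | ⟨i, a⟩ <;> rcases j with ⟨j, b⟩ | ⟨j, b⟩ <;> rfl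

lemma cdet_unit (M : Matrix Unit Unit (Matrix N N K)) : cdet M = (M () ()).det := by
  unfold cdet
  rw [← det_reindex_self (Equiv.punitProd N)]
  rfl

/-- Block diagonal embedding of a product of two matrix rings. -/
def bsum : Matrix N N K × Matrix N' N' K →+* Matrix (N ⊕ N') (N ⊕ N') K where
  toFun p := fromBlocks p.1 0 0 p.2
  map_one' := fromBlocks_one
  map_mul' p q := by simp [fromBlocks_multiply]
  map_zero' := fromBlocks_zero
  map_add' p q := by simp [fromBlocks_add]

lemma cdet_bsum (M : Matrix n n (Matrix N N K × Matrix N' N' K)) :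
    cdet (M.map bsum) = cdet (M.map Prod.fst) * cdet (M.map Prod.snd) := by
  unfold cdet
  rw [← det_fromBlocks_zero₂₁ _ 0, ← det_reindex_self (Equiv.prodSumDistrib n N N')]
  congr 1
  ext i j
  rcases i with ⟨i, a⟩ | ⟨i, a⟩ <;> rcases j with ⟨j, b⟩ | ⟨j, b⟩ <;> rfl

/-- The determinant of a matrix over the free ring at a pair of matrices. -/
def dl (A : Matrix n n FP) (X Y : Matrix N N K) : K := cdet (A.map (pt X Y))

lemma dl_map (f : K →+* K') (A : Matrix n n FP) (X Y : Matrix N N K) :
    dl A (X.map f) (Y.map f) = f (dl A X Y) := by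
  unfold dl
  rw [← cdet_map, Matrix.map_map]
  have := comp_pt f.mapMatrix X Y
  simp only [RingHom.mapMatrix_apply] at this
  rw [← this]
  rfl

lemma dl_reindex (e : N ≃ N') (A : Matrix n n FP) (X Y : Matrix N N K) :
    dl A (Matrix.reindex e e X) (Matrix.reindex e e Y) = dl A X Y := by
  unfold dl
  rw [← cdet_reindex_inner e (A.map (pt X Y)), Matrix.map_map]
  have := comp_pt (Matrix.reindexAlgEquiv K K e).toRingEquiv.toRingHom X Y
  congr 2
  exact congrArg DFunLike.coe this.symm

lemma dl_reindex_outer (e : n ≃ n') (A : Matrix n n FP) (X Y : Matrix N N K) :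
    dl (Matrix.reindex e e A) X Y = dl A X Y := by
  unfold dl
  rw [← cdet_reindex_outer e (A.map (pt X Y))]
  rfl

lemma dl_bsum (A : Matrix n n FP) (X Y : Matrix N N K) (X' Y' : Matrix N' N' K) :
    dl A (fromBlocks X 0 0 X') (fromBlocks Y 0 0 Y') = dl A X Y * dl A X' Y' := by
  have h : pt (fromBlocks X 0 0 X') (fromBlocks Y 0 0 Y') =
      bsum.comp ((pt X Y).prod (pt X' Y')) := by
    apply pt_ext <;> simp [bsum]
  unfold dl
  rw [h]
  have h2 : A.map (bsum.comp ((pt X Y).prod (pt X' Y'))) =
    (A.map ((pt X Y).prod (pt X' Y'))).map bsum := rfl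
  rw [h2, cdet_bsum]
  rfl

lemma dl_upper (A : Matrix n n FP) (B : Matrix n n' FP) (D : Matrix n' n' FP)
    (X Y : Matrix N N K) : dl (fromBlocks A B 0 D) X Y = dl A X Y * dl D X Y := by
  unfold dl
  rw [fromBlocks_map, Matrix.map_zero _ (map_zero _), cdet_upper]

/-- The bordered matrix. -/
def border (A : Matrix n n FP) (b c : n → FP) : Matrix (n ⊕ Unit) (n ⊕ Unit) FP :=
  fromBlocks A (Matrix.of fun i _ => b i) (Matrix.of fun _ j => c j) 0

/-- The numerator `c · adj(A) · b` at a pair of matrices. -/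
def numer (A : Matrix n n FP) (b c : n → FP) (X Y : Matrix N N K) : Matrix N N K :=
  (fun i => pt X Y (c i)) ⬝ᵥ (cadj (A.map (pt X Y)) *ᵥ (fun i => pt X Y (b i)))

lemma numer_map (f : K →+* K') (A : Matrix n n FP) (b c : n → FP) (X Y : Matrix N N K) :
    numer A b c (X.map f) (Y.map f) = (numer A b c X Y).map f := by
  have h := comp_pt f.mapMatrix X Y
  simp only [RingHom.mapMatrix_apply] at h
  have h2 : A.map (pt (X.map f) (Y.map f)) = (A.map (pt X Y)).map f.mapMatrix := by
    rw [← h]; rfl
  unfold numer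
  rw [h2, cadj_map, ← h]
  change _ = f.mapMatrix _
  rw [RingHom.map_dotProduct]
  congr 1
  funext i
  simp only [Function.comp_apply]
  rw [RingHom.map_mulVec]
  rfl

lemma dl_border_ne_zero [IsDomain K] (A : Matrix n n FP) (b c : n → FP) (X Y : Matrix N N K)
    (h1 : dl A X Y ≠ 0) (h2 : (numer A b c X Y).det ≠ 0) : dl (border A b c) X Y ≠ 0 := by
  set ψ := pt X Y with hψ
  set B : Matrix n Unit (Matrix N N K) := Matrix.of fun i _ => ψ (b i) with hB
  set C : Matrix Unit n (Matrix N N K) := Matrix.of fun _ j => ψ (c j) with hC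
  set M := A.map ψ with hM
  have e0 : (border A b c).map ψ = fromBlocks M B C 0 := by
    unfold border
    rw [fromBlocks_map, Matrix.map_zero _ (map_zero _)]
    rfl
  have e1 : fromBlocks M B C 0 * fromBlocks (cadj M) (-(cadj M * B)) 0 (cdet M • 1) =
      fromBlocks (cdet M • 1) 0 (C * cadj M) (-(C * (cadj M * B))) := by
    rw [fromBlocks_multiply]
    congr 1
    · rw [Matrix.mul_zero, add_zero, mul_cadj]
    · rw [Matrix.mul_neg, ← Matrix.mul_assoc, mul_cadj, Matrix.smul_mul, Matrix.one_mul,
        Matrix.mul_smul, Matrix.mul_one, neg_add_cancel]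
    · rw [Matrix.mul_zero, add_zero]
    · rw [Matrix.zero_mul, add_zero, Matrix.mul_neg]
  intro h0
  have e2 := congrArg cdet e1
  have e3 : cdet (fromBlocks M B C 0) = 0 := by rw [← e0]; exact h0
  rw [cdet_mul, e3, zero_mul, cdet_lower, cdet_smul_one, cdet_unit] at e2
  have e4 : (-(C * (cadj M * B))) () () = -(numer A b c X Y) := rfl
  rw [e4, det_neg] at e2
  rcases mul_eq_zero.1 e2.symm with h | h
  · exact h1 (pow_eq_zero_iff (n := Fintype.card (n × N)) (by
      rintro h'; rw [h', pow_zero] at h; exact one_ne_zero h) |>.1 h)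
  · rcases mul_eq_zero.1 h with h | h
    · exact absurd h (pow_ne_zero _ (by simp))
    · exact h2 h

end cdet

end Pool.Agent.H413Z
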