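import Mathlib
import Pool.Agent.H413Z.Det

/-!
Full matrices over the free ring: those that become invertible at some pair of complex matrices.
-/

set_option autoImplicit false
set_option linter.unusedSectionVars false

open Matrix

namespace Pool.Agent.H413Z

variable {n n' N K : Type} [Fintype n] [DecidableEq n] [Fintype n'] [DecidableEq n']
  [Fintype N] [DecidableEq N] [CommRing K]

/-- The coordinate ring of pairs of square matrices. -/
abbrev Gen (N : Type) : Type := MvPolynomial (Bool × N × N) ℂ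

/-- First generic matrix. -/
noncomputable def gX (N : Type) : Matrix N N (Gen N) :=
  Matrix.of fun i j => MvPolynomial.X (true, i, j)

/-- Second generic matrix. -/
noncomputable def gY (N : Type) : Matrix N N (Gen N) :=
  Matrix.of fun i j => MvPolynomial.X (false, i, j)

/-- Specialisation of the generic pair. -/
noncomputable def evG [Algebra ℂ K] (X Y : Matrix N N K) : Gen N →+* K :=
  (MvPolynomial.aeval (fun p : Bool × N × N => cond p.1 (X p.2.1 p.2.2) (Y p.2.1 p.2.2))).toRingHom

lemma gX_map [Algebra ℂ K] (X Y : Matrix N N K) : (gX N).map (evG X Y) = X := by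
  ext i j
  simp [gX, evG]

lemma gY_map [Algebra ℂ K] (X Y : Matrix N N K) : (gY N).map (evG X Y) = Y := by
  ext i j
  simp [gY, evG]

lemma dl_gen [Algebra ℂ K] (A : Matrix n n FP) (X Y : Matrix N N K) :
    dl A X Y = evG X Y (dl A (gX N) (gY N)) := by
  rw [← dl_map, gX_map, gY_map]

lemma numer_gen [Algebra ℂ K] (A : Matrix n n FP) (b c : n → FP) (X Y : Matrix N N K) :
    numer A b c X Y = (numer A b c (gX N) (gY N)).map (evG X Y) := by
  rw [← numer_map, gX_map, gY_map]

lemma gen_ne_zero [Algebra ℂ K] (A : Matrix n n FP) (X Y : Matrix N N K) (h : dl A X Y ≠ 0) :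
    dl A (gX N) (gY N) ≠ 0 := by
  intro h0
  rw [dl_gen, h0, map_zero] at h
  exact h rfl

lemma exists_point (A : Matrix n n FP) (h : dl A (gX N) (gY N) ≠ 0) :
    ∃ X Y : Matrix N N ℂ, dl A X Y ≠ 0 := by
  by_contra hc
  push Not at hc
  apply h
  apply MvPolynomial.funext
  intro v
  rw [map_zero, ← dl_map, hc]

/-- Invertibility at some pair of complex matrices of a given size. -/
def FullAt (A : Matrix n n FP) (k : ℕ) : Prop :=
  ∃ X Y : Matrix (Fin k) (Fin k) ℂ, dl A X Y ≠ 0

/-- Invertibility at some pair of complex matrices of positive size. -/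
def Full (A : Matrix n n FP) : Prop := ∃ k, 0 < k ∧ FullAt A k

lemma fullAt_of_point [Algebra ℂ K] (A : Matrix n n FP) (X Y : Matrix N N K)
    (h : dl A X Y ≠ 0) : FullAt A (Fintype.card N) := by
  obtain ⟨X', Y', h'⟩ := exists_point A (gen_ne_zero A X Y h)
  exact ⟨_, _, by rwa [dl_reindex (Fintype.equivFin N)]⟩

lemma full_of_point [Algebra ℂ K] [Nonempty N] (A : Matrix n n FP) (X Y : Matrix N N K)
    (h : dl A X Y ≠ 0) : Full A :=
  ⟨_, Fintype.card_pos, fullAt_of_point A X Y h⟩

lemma fullAt_add (A : Matrix n n FP) {k l : ℕ} (hk : FullAt A k) (hl : FullAt A l) :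
    FullAt A (k + l) := by
  obtain ⟨X, Y, h⟩ := hk
  obtain ⟨X', Y', h'⟩ := hl
  have := fullAt_of_point A (fromBlocks X 0 0 X') (fromBlocks Y 0 0 Y')
    (by rw [dl_bsum]; exact mul_ne_zero h h')
  simpa using this

lemma fullAt_mul (A : Matrix n n FP) {k : ℕ} (hk : FullAt A k) (j : ℕ) :
    FullAt A ((j + 1) * k) := by
  induction j with
  | zero => simpa using hk
  | succ j ih =>
    rw [Nat.succ_mul]
    exact fullAt_add A ih hk

lemma full_upper {A : Matrix n n FP} (B : Matrix n n' FP) {D : Matrix n' n' FP}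
    (hA : Full A) (hD : Full D) : Full (fromBlocks A B 0 D) := by
  obtain ⟨k, hk, hA⟩ := hA
  obtain ⟨l, hl, hD⟩ := hD
  obtain ⟨k, rfl⟩ := Nat.exists_eq_succ_of_ne_zero hk.ne'
  obtain ⟨l, rfl⟩ := Nat.exists_eq_succ_of_ne_zero hl.ne'
  have h1 := fullAt_mul A hA l
  have h2 := fullAt_mul D hD k
  rw [Nat.mul_comm] at h2
  obtain ⟨X, Y, h1⟩ := h1
  obtain ⟨X', Y', h2⟩ := h2
  have : Nonempty (Fin ((l + 1) * k.succ)) := ⟨⟨0, by positivity⟩⟩
  apply full_of_point _ (gX (Fin ((l + 1) * k.succ))) (gY _)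
  rw [dl_upper]
  exact mul_ne_zero (gen_ne_zero A X Y h1) (gen_ne_zero D X' Y' h2)

lemma full_reindex (e : n ≃ n') {A : Matrix n n FP} (hA : Full A) :
    Full (Matrix.reindex e e A) := by
  obtain ⟨k, hk, X, Y, h⟩ := hA
  exact ⟨k, hk, X, Y, by rwa [dl_reindex_outer]⟩

lemma full_one : Full (1 : Matrix n n FP) := by
  refine ⟨1, one_pos, 0, 0, ?_⟩
  unfold dl
  rw [Matrix.map_one _ (map_zero _) (map_one _)]
  have := cdet_smul_one (n := n) (N := Fin 1) (1 : ℂ)
  rw [one_smul, one_pow] at this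
  rw [this]
  exact one_ne_zero

/-- The one by one matrix whose entry is the first generator. -/
def genA : Matrix Unit Unit FP := Matrix.of fun _ _ => FreeRing.of true

lemma dl_genA (X Y : Matrix N N K) : dl genA X Y = X.det := by
  unfold dl
  rw [cdet_unit]
  simp [genA]

lemma full_genA : Full genA :=
  ⟨1, one_pos, 1, 1, by rw [dl_genA, det_one]; exact one_ne_zero⟩

end Pool.Agent.H413Z
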