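import Mathlib
import Pool.Agent.H413Z.Full

/-!
A rational expression in two generic matrices is zero or invertible.
-/

set_option autoImplicit false
set_option linter.unusedSectionVars false

open Matrix Polynomial

namespace Pool.Agent.H413Z

variable {n N K : Type} [Fintype n] [DecidableEq n] [Fintype N] [DecidableEq N] [CommRing K]

lemma twist (Θ : Matrix N N K →+* Matrix N N K) (σ : K →+* K)
    (hΘ : ∀ (d : K) (M : Matrix N N K), Θ (d • M) = σ d • Θ M)
    (A : Matrix n n FP) (b c : n → FP) (X Y : Matrix N N K) (hX : Θ X = X) (hY : Θ Y = Y) :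
    dl A X Y • Θ (numer A b c X Y) = σ (dl A X Y) • numer A b c X Y := by
  have hψ : Θ.comp (pt X Y) = pt X Y := by rw [comp_pt, hX, hY]
  have hψ' : ∀ p, Θ (pt X Y p) = pt X Y p := fun p => congrArg (fun f : FP →+* _ => f p) hψ
  set M := A.map (pt X Y) with hM
  have hMΘ : M.map Θ = M := by
    ext i j : 1
    exact hψ' _
  have h1 : M * (cadj M).map Θ = σ (cdet M) • 1 := by
    have := congrArg Θ.mapMatrix (mul_cadj M)
    rw [map_mul] at this
    simp only [RingHom.mapMatrix_apply, hMΘ] at this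
    rw [this]
    ext i j : 1
    simp only [Matrix.map_apply, Matrix.smul_apply, hΘ]
    by_cases h : i = j
    · subst h; simp
    · simp [one_apply_ne h]
  have h2 : cdet M • (cadj M).map Θ = σ (cdet M) • cadj M := by
    have := congrArg (fun T => cadj M * T) h1
    simp only [← Matrix.mul_assoc, cadj_mul, Matrix.smul_mul, Matrix.one_mul, Matrix.mul_smul,
      Matrix.mul_one] at this
    exact this
  have h3 : Θ (numer A b c X Y) =
      (fun i => pt X Y (c i)) ⬝ᵥ (((cadj M).map Θ) *ᵥ (fun i => pt X Y (b i))) := by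
    unfold numer
    rw [RingHom.map_dotProduct]
    congr 1
    · funext i; exact hψ' _
    · funext i
      simp only [Function.comp_apply]
      rw [RingHom.map_mulVec]
      have : (Θ ∘ fun i => pt X Y (b i)) = fun i => pt X Y (b i) := by
        funext j; exact hψ' _
      rw [this]
  rw [h3]
  change cdet M • _ = σ (cdet M) • ((fun i => pt X Y (c i)) ⬝ᵥ (cadj M *ᵥ (fun i => pt X Y (b i))))
  rw [← dotProduct_smul, ← dotProduct_smul, ← smul_mulVec, ← smul_mulVec, h2]

lemma det_ne_zero_of_top [IsDomain K] (M : Matrix N N K[X]) (d : ℕ)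
    (hd : ∀ i j, (M i j).natDegree ≤ d)
    (h1 : ∀ j, ∃ i, (M i j).coeff d ≠ 0)
    (h2 : ∀ i j j', (M i j).coeff d ≠ 0 → (M i j').coeff d ≠ 0 → j = j') : M.det ≠ 0 := by
  set L : Matrix N N K := M.map (fun p => p.coeff d) with hL
  have hdet : L.det ≠ 0 := by
    intro h0
    obtain ⟨v, hv, hv0⟩ := Matrix.exists_mulVec_eq_zero_iff.2 h0
    apply hv
    funext j
    obtain ⟨i, hi⟩ := h1 j
    have h3 := congrFun hv0 i
    simp only [mulVec, dotProduct, Pi.zero_apply] at h3
    rw [Finset.sum_eq_single j] at h3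
    · exact (mul_eq_zero.1 h3).resolve_left hi
    · intro j' _ hj'
      have : L i j' = 0 := by
        by_contra hne
        exact hj' (h2 i j' j hne hi)
      rw [this, zero_mul]
    · intro h; exact absurd (Finset.mem_univ j) h
  intro h0
  apply hdet
  have h3 := congrArg (fun p : K[X] => p.coeff (Fintype.card N * d)) h0
  simp only [det_apply, finsetSum_coeff, coeff_smul, coeff_zero] at h3
  rw [det_apply, ← h3]
  apply Finset.sum_congr rfl
  intro σ _
  congr 1
  rw [← Finset.card_univ, coeff_prod_of_natDegree_le _ _ _ (fun i _ => hd _ _)]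
  rfl

section
variable {k : ℕ} [NeZero k] (ι : N ≃ ZMod k) (χ : ZMod k → K)

/-- Cyclic shift of the index set. -/
def shf : N ≃ N := ι.trans ((Equiv.addRight 1).trans ι.symm)

lemma ι_shf (i : N) : ι (shf ι i) = ι i + 1 := by simp [shf]

/-- Conjugation by a diagonal character together with a substitution in the entries. -/
noncomputable def diagTw (h0 : χ 0 = 1) (hadd : ∀ a b, χ (a + b) = χ a * χ b) (σ : K[X] →+* K[X]) :
    Matrix N N K[X] →+* Matrix N N K[X] where
  toFun M := Matrix.of fun i j => C (χ (ι j - ι i)) * σ (M i j)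
  map_one' := by
    ext i j : 1
    by_cases h : i = j
    · subst h; simp [h0]
    · simp [one_apply_ne h]
  map_mul' M M' := by
    ext i j : 1
    simp only [of_apply, mul_apply, map_sum, Finset.mul_sum, map_mul]
    apply Finset.sum_congr rfl
    intro l _
    have : ι j - ι i = (ι l - ι i) + (ι j - ι l) := by ring
    rw [this, hadd, C_mul]
    ring
  map_zero' := by ext i j : 1; simp
  map_add' M M' := by ext i j : 1; simp [mul_add]

lemma det_ne_zero_of_twists [IsDomain K] (h0 : χ 0 = 1) (hadd : ∀ a b, χ (a + b) = χ a * χ b)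
    (hinj : Function.Injective χ) (σ0 : K →+* K) (hσ0 : Function.Injective σ0)
    (M : Matrix N N K[X]) (δ : K[X]) (hδ : δ ≠ 0) (hM : M ≠ 0)
    (e1 : ∀ i j, δ * (M i j).map σ0 = δ.map σ0 * M (shf ι i) (shf ι j))
    (e2 : ∀ i j, δ * (C (χ (ι j - ι i)) * (M i j).comp (C (χ 1) * X)) =
      δ.comp (C (χ 1) * X) * M i j) : M.det ≠ 0 := by
  classical
  have hpow : ∀ m : ℕ, χ 1 ^ m = χ m := by
    intro m
    induction m with
    | zero => simp [h0]
    | succ m ih => rw [pow_succ, ih, ← hadd]; simp
  have hne : (Finset.univ.filter fun p : N × N => M p.1 p.2 ≠ 0).Nonempty := by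
    by_contra hc
    apply hM
    ext i j : 1
    by_contra h
    exact hc ⟨(i, j), by simpa using h⟩
  obtain ⟨⟨i0, j0⟩, hp0, hmax⟩ := Finset.exists_max_image _
    (fun p : N × N => (M p.1 p.2).natDegree) hne
  simp only [Finset.mem_filter, Finset.mem_univ, true_and] at hp0 hmax
  set d := (M i0 j0).natDegree with hd
  have hdeg : ∀ i j, (M i j).natDegree ≤ d := by
    intro i j
    by_cases h : M i j = 0
    · rw [h]; simp
    · exact hmax (i, j) h
  have hlc : δ.coeff δ.natDegree ≠ 0 := by simpa using hδ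
  have hcomp : ∀ p : K[X], (p.comp (C (χ 1) * X)).natDegree ≤ p.natDegree := by
    intro p
    rw [natDegree_le_iff_coeff_eq_zero]
    intro m hm
    rw [comp_C_mul_X_coeff, coeff_eq_zero_of_natDegree_lt hm, zero_mul]
  have s1 : ∀ i j, (M i j).coeff d ≠ 0 → (M (shf ι i) (shf ι j)).coeff d ≠ 0 := by
    intro i j h hz
    have h3 := congrArg (fun p : K[X] => p.coeff (δ.natDegree + d)) (e1 i j)
    rw [coeff_mul_add_eq_of_natDegree_le le_rfl (natDegree_map_le.trans (hdeg i j)),
      coeff_mul_add_eq_of_natDegree_le natDegree_map_le (hdeg _ _), hz, mul_zero,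
      coeff_map] at h3
    rcases mul_eq_zero.1 h3 with h4 | h4
    · exact hlc h4
    · exact h (hσ0 (h4.trans (map_zero σ0).symm))
  have s2 : ∀ i j, (M i j).coeff d ≠ 0 → ι j - ι i + d = δ.natDegree := by
    intro i j h
    have h3 := congrArg (fun p : K[X] => p.coeff (δ.natDegree + d)) (e2 i j)
    rw [coeff_mul_add_eq_of_natDegree_le le_rfl
        ((natDegree_C_mul_le _ _).trans ((hcomp _).trans (hdeg i j))),
      coeff_mul_add_eq_of_natDegree_le (hcomp _) (hdeg _ _), coeff_C_mul,
      comp_C_mul_X_coeff, comp_C_mul_X_coeff, hpow, hpow] at h3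
    apply hinj
    rw [hadd]
    apply mul_left_cancel₀ (mul_ne_zero hlc h)
    linear_combination h3
  apply det_ne_zero_of_top M d hdeg
  · have s3 : ∀ m : ℕ, ∃ i j, ι j = ι j0 + m ∧ (M i j).coeff d ≠ 0 := by
      intro m
      induction m with
      | zero => exact ⟨i0, j0, by simp, by simpa [hd] using hp0⟩
      | succ m ih =>
        obtain ⟨i, j, h1, h2⟩ := ih
        exact ⟨_, _, by rw [ι_shf, h1]; push_cast; ring, s1 i j h2⟩
    intro j
    obtain ⟨i, j', h1, h2⟩ := s3 (ι j - ι j0).val
    have : j' = j := by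
      apply ι.injective
      rw [h1]; simp
    exact ⟨i, this ▸ h2⟩
  · intro i j j' h h'
    apply ι.injective
    have := (s2 i j h).trans (s2 i j' h').symm
    linear_combination this

end

/-- If the bordered matrix is never invertible, then the rational expression vanishes. -/
theorem dichotomy [Algebra ℂ K] [Nonempty N] (A : Matrix n n FP) (b c : n → FP)
    (hb : ¬ Full (border A b c)) (X Y : Matrix N N K) (hA : dl A X Y ≠ 0) :
    numer A b c X Y = 0 := by
  by_contra hne
  apply hb
  have hA0 := gen_ne_zero A X Y hA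
  have hM0 : numer A b c (gX N) (gY N) ≠ 0 := by
    intro h
    rw [numer_gen, h] at hne
    exact hne (Matrix.map_zero _ (map_zero _))
  have : NeZero (Fintype.card N) := ⟨Fintype.card_ne_zero⟩
  let ι : N ≃ ZMod (Fintype.card N) := Fintype.equivOfCardEq (by simp)
  let χ : ZMod (Fintype.card N) → Gen N := fun a => MvPolynomial.C (ZMod.stdAddChar a)
  have h0 : χ 0 = 1 := by simp [χ]
  have hadd : ∀ a b, χ (a + b) = χ a * χ b := by
    intro a b; simp [χ, AddChar.map_add_eq_mul]
  have hinj : Function.Injective χ :=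
    (MvPolynomial.C_injective _ _).comp ZMod.injective_stdAddChar
  have hpow : ∀ m : ℕ, χ 1 ^ m = χ m := by
    intro m
    induction m with
    | zero => simp [h0]
    | succ m ih => rw [pow_succ, ih, ← hadd]; simp
  let tw : Bool → Matrix N N (Gen N)[X] := fun β =>
    Matrix.of fun i j => C (MvPolynomial.X (β, i, j)) * Polynomial.X ^ (ι i - ι j).val
  have ht1 : (tw true).map (evalRingHom 1) = gX N := by ext i j : 1; simp [tw, gX]
  have ht2 : (tw false).map (evalRingHom 1) = gY N := by ext i j : 1; simp [tw, gY]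
  have hδ : dl A (tw true) (tw false) ≠ 0 := by
    intro h
    apply hA0
    rw [← ht1, ← ht2, dl_map, h, map_zero]
  have hM : numer A b c (tw true) (tw false) ≠ 0 := by
    intro h
    apply hM0
    rw [← ht1, ← ht2, numer_map, h]
    exact Matrix.map_zero _ (map_zero _)
  apply full_of_point _ (tw true) (tw false)
  apply dl_border_ne_zero _ _ _ _ _ hδ
  let ρ : Bool × N × N → Bool × N × N := fun p => (p.1, shf ι p.2.1, shf ι p.2.2)
  have hρ : Function.Injective ρ := by
    rintro ⟨β, i, j⟩ ⟨β', i', j'⟩ h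
    simp only [ρ, Prod.mk.injEq, EmbeddingLike.apply_eq_iff_eq] at h
    rw [h.1, h.2.1, h.2.2]
  let σ0 : Gen N →+* Gen N := (MvPolynomial.rename ρ).toRingHom
  have hσ0 : Function.Injective σ0 := MvPolynomial.rename_injective ρ hρ
  let Θ1 : Matrix N N (Gen N)[X] →+* Matrix N N (Gen N)[X] :=
    (Matrix.reindexAlgEquiv ℤ _ (shf ι)).toRingEquiv.toRingHom.comp
      (Polynomial.mapRingHom σ0).mapMatrix
  have hΘ1 : ∀ M i j, Θ1 M (shf ι i) (shf ι j) = (M i j).map σ0 := by
    intro M i j
    simp [Θ1]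
  have hfix1 : ∀ β, Θ1 (tw β) = tw β := by
    intro β
    ext i j : 1
    obtain ⟨i, rfl⟩ := (shf ι).surjective i
    obtain ⟨j, rfl⟩ := (shf ι).surjective j
    rw [hΘ1]
    simp [tw, σ0, ρ, ι_shf]
  let σ2 : (Gen N)[X] →+* (Gen N)[X] := compRingHom (C (χ 1) * Polynomial.X)
  have hfix2 : ∀ β, diagTw ι χ h0 hadd σ2 (tw β) = tw β := by
    intro β
    ext i j : 1
    change C (χ (ι j - ι i)) * (C (MvPolynomial.X (β, i, j)) *
      Polynomial.X ^ (ι i - ι j).val).comp (C (χ 1) * Polynomial.X) =
      C (MvPolynomial.X (β, i, j)) * Polynomial.X ^ (ι i - ι j).val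
    rw [mul_comp, C_comp, pow_comp, X_comp, mul_pow, ← C_pow, hpow, ZMod.natCast_zmod_val]
    have : C (χ (ι j - ι i)) * C (χ (ι i - ι j)) = (1 : (Gen N)[X]) := by
      rw [← C_mul, ← hadd]; simp [h0]
    linear_combination (C (MvPolynomial.X (β, i, j)) * Polynomial.X ^ (ι i - ι j).val) * this
  have t1 := twist Θ1 (Polynomial.mapRingHom σ0) (by
    intro d M
    ext i j : 1
    obtain ⟨i, rfl⟩ := (shf ι).surjective i
    obtain ⟨j, rfl⟩ := (shf ι).surjective j
    rw [Matrix.smul_apply, hΘ1, hΘ1]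
    simp) A b c _ _ (hfix1 true) (hfix1 false)
  have t2 := twist (diagTw ι χ h0 hadd σ2) σ2 (by
    intro d M
    ext i j : 1
    change C (χ (ι j - ι i)) * σ2 (d * M i j) = σ2 d * (C (χ (ι j - ι i)) * σ2 (M i j))
    rw [map_mul]; ring) A b c _ _ (hfix2 true) (hfix2 false)
  apply det_ne_zero_of_twists ι χ h0 hadd hinj σ0 hσ0 _ _ hδ hM
  · intro i j
    have := congrFun (congrFun t1 (shf ι i)) (shf ι j)
    rw [Matrix.smul_apply, Matrix.smul_apply, hΘ1] at this
    exact this
  · intro i j
    exact congrFun (congrFun t2 i) j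

end Pool.Agent.H413Z
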