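import Mathlib

/-!
Finite rank operators, matrices of operators, and the unilateral shift.
-/

set_option autoImplicit false
set_option linter.unusedSectionVars false

open Matrix

namespace Pool.Agent.H413Z

lemma matrix_unit_regular {n : Type} [Fintype n] [DecidableEq n] (M : Matrix n n ℂ) :
    ∃ u v : Matrix n n ℂ, u * v = 1 ∧ v * u = 1 ∧ M = M * u * M := by
  classical
  obtain ⟨L, L', D, h⟩ := Matrix.Pivot.exists_list_transvec_mul_diagonal_mul_list_transvec M
  set P := (L.map TransvectionStruct.toMatrix).prod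
  set Q := (L'.map TransvectionStruct.toMatrix).prod
  have hP : IsUnit P.det := by rw [TransvectionStruct.det_toMatrix_prod]; exact isUnit_one
  have hQ : IsUnit Q.det := by rw [TransvectionStruct.det_toMatrix_prod]; exact isUnit_one
  let D' : n → ℂ := fun i => if D i = 0 then 1 else (D i)⁻¹
  let D'' : n → ℂ := fun i => if D i = 0 then 1 else D i
  have h1 : diagonal D' * diagonal D'' = 1 := by
    rw [diagonal_mul_diagonal, ← diagonal_one]
    congr 1
    funext i
    by_cases hi : D i = 0 <;> simp [D', D'', hi]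
  have h2 : diagonal D * diagonal D' * diagonal D = diagonal D := by
    rw [diagonal_mul_diagonal, diagonal_mul_diagonal]
    congr 1
    funext i
    by_cases hi : D i = 0 <;> simp [D', hi]
  have h3 : Q⁻¹ * diagonal D' * P⁻¹ * (P * diagonal D'' * Q) = 1 := by
    calc _ = Q⁻¹ * (diagonal D' * (P⁻¹ * P) * diagonal D'') * Q := by simp only [Matrix.mul_assoc]
      _ = 1 := by rw [nonsing_inv_mul _ hP, Matrix.mul_one, h1, Matrix.mul_one,
        nonsing_inv_mul _ hQ]
  refine ⟨Q⁻¹ * diagonal D' * P⁻¹, P * diagonal D'' * Q, h3, mul_eq_one_comm.1 h3, ?_⟩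
  rw [h]
  calc _ = P * (diagonal D * (Q * Q⁻¹) * diagonal D' * (P⁻¹ * P) * diagonal D) * Q := by
        rw [nonsing_inv_mul _ hP, mul_nonsing_inv _ hQ, Matrix.mul_one, Matrix.mul_one, h2]
    _ = _ := by simp only [Matrix.mul_assoc]

lemma end_unit_regular {W : Type} [AddCommGroup W] [Module ℂ W] [FiniteDimensional ℂ W]
    (f : Module.End ℂ W) : ∃ u v : Module.End ℂ W, u * v = 1 ∧ v * u = 1 ∧ f = f * u * f := by
  let φ := LinearMap.toMatrixAlgEquiv (Module.finBasis ℂ W)
  obtain ⟨u, v, h1, h2, h3⟩ := matrix_unit_regular (φ f)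
  refine ⟨φ.symm u, φ.symm v, ?_, ?_, ?_⟩
  · rw [← map_mul, h1, map_one]
  · rw [← map_mul, h2, map_one]
  · apply φ.injective
    rw [map_mul, map_mul, φ.apply_symm_apply]
    exact h3

section FR
variable {V W Z : Type} [NormedAddCommGroup V] [NormedSpace ℂ V] [NormedAddCommGroup W]
  [NormedSpace ℂ W] [NormedAddCommGroup Z] [NormedSpace ℂ Z]

/-- Finite rank. -/
def FR (T : V →L[ℂ] W) : Prop := FiniteDimensional ℂ (LinearMap.range (T : V →ₗ[ℂ] W))

lemma FR.zero : FR (0 : V →L[ℂ] W) := by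
  unfold FR
  rw [ContinuousLinearMap.toLinearMap_zero, LinearMap.range_zero]
  infer_instance

lemma FR.add {S T : V →L[ℂ] W} (hS : FR S) (hT : FR T) : FR (S + T) := by
  unfold FR at *
  apply Submodule.finiteDimensional_of_le
    (S₂ := LinearMap.range (S : V →ₗ[ℂ] W) ⊔ LinearMap.range (T : V →ₗ[ℂ] W))
  rintro _ ⟨x, rfl⟩
  exact Submodule.add_mem_sup ⟨x, rfl⟩ ⟨x, rfl⟩

lemma FR.comp_left (S : W →L[ℂ] Z) {T : V →L[ℂ] W} (hT : FR T) : FR (S.comp T) := by
  unfold FR at *
  have : ((S.comp T : V →L[ℂ] Z) : V →ₗ[ℂ] Z) = (S : W →ₗ[ℂ] Z).comp (T : V →ₗ[ℂ] W) := rfl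
  rw [this, LinearMap.range_comp]
  infer_instance

lemma FR.comp_right {S : W →L[ℂ] Z} (T : V →L[ℂ] W) (hS : FR S) : FR (S.comp T) := by
  unfold FR at *
  apply Submodule.finiteDimensional_of_le (S₂ := LinearMap.range (S : W →ₗ[ℂ] Z))
  rintro _ ⟨x, rfl⟩
  exact ⟨T x, rfl⟩

lemma FR.sum {ι : Type} (s : Finset ι) (T : ι → V →L[ℂ] W) (h : ∀ i ∈ s, FR (T i)) :
    FR (∑ i ∈ s, T i) :=
  Finset.sum_induction T FR (fun _ _ => FR.add) FR.zero h

lemma FR.of_finiteDimensional [FiniteDimensional ℂ W] (T : V →L[ℂ] W) : FR T := by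
  unfold FR
  infer_instance

lemma FR.regular {a : V →L[ℂ] V} (ha : FR a) : ∃ b : V →L[ℂ] V, a * b * a = a := by
  unfold FR at ha
  obtain ⟨q, hq⟩ := Submodule.ClosedComplemented.of_finiteDimensional
    (LinearMap.range (a : V →ₗ[ℂ] V))
  obtain ⟨g, hg⟩ := LinearMap.exists_rightInverse_of_surjective
    (a : V →ₗ[ℂ] V).rangeRestrict (LinearMap.range_rangeRestrict _)
  refine ⟨(LinearMap.toContinuousLinearMap g).comp q, ?_⟩
  ext x
  have h1 := hq ⟨a x, x, rfl⟩
  have h2 := congrArg Subtype.val (LinearMap.congr_fun hg ⟨a x, x, rfl⟩)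
  change a (g (q (a x))) = a x
  rw [h1]
  exact h2

lemma FR.corner {e a : V →L[ℂ] V} (he : FR e) (hee : e * e = e) (ha : e * a * e = a) :
    ∃ u v : V →L[ℂ] V, e * u * e = u ∧ e * v * e = v ∧ u * v = e ∧ v * u = e ∧
      a = a * u * a := by
  unfold FR at he
  set U := LinearMap.range (e : V →ₗ[ℂ] V) with hU
  let r : V →L[ℂ] U := e.codRestrict U (fun x => ⟨x, rfl⟩)
  have hee' : ∀ x, e (e x) = e x := fun x => congrArg (fun T : V →L[ℂ] V => T x) hee
  have heU : ∀ w : U, e w = w := by
    rintro ⟨_, x, rfl⟩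
    exact hee' x
  have hr : ∀ w : U, r w = w := fun w => Subtype.ext (heU w)
  let lift : Module.End ℂ U → V →L[ℂ] V := fun g =>
    U.subtypeL.comp ((LinearMap.toContinuousLinearMap g).comp r)
  have hl : ∀ g x, lift g x = g (r x) := fun g x => rfl
  have hmul : ∀ g g', lift g * lift g' = lift (g * g') := by
    intro g g'
    ext x
    rw [mul_apply_eq_comp, hl, hl, hl, hr]
    rfl
  have hone : lift 1 = e := by
    ext x
    rfl
  have hcorner : ∀ g, e * lift g * e = lift g := by
    intro g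
    rw [← hone, hmul, hmul, one_mul, mul_one]
  let aU : Module.End ℂ U := (r : V →ₗ[ℂ] U) ∘ₗ (a : V →ₗ[ℂ] V) ∘ₗ U.subtype
  have haU : lift aU = a := by
    rw [← ha]
    ext x
    rfl
  obtain ⟨u, v, h1, h2, h3⟩ := end_unit_regular aU
  refine ⟨lift u, lift v, hcorner u, hcorner v, ?_, ?_, ?_⟩
  · rw [hmul, h1, hone]
  · rw [hmul, h2, hone]
  · rw [← haU, hmul, hmul, ← h3]

variable {N : Type} [Fintype N] [DecidableEq N]

/-- A matrix of operators as an operator on the product. -/
noncomputable def matOp (M : Matrix N N (V →L[ℂ] V)) : (N → V) →L[ℂ] (N → V) :=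
  ContinuousLinearMap.pi fun i => ∑ j, (M i j).comp (ContinuousLinearMap.proj j)

lemma matOp_apply (M : Matrix N N (V →L[ℂ] V)) (v : N → V) (i : N) :
    matOp M v i = ∑ j, M i j (v j) := by
  simp [matOp]

/-- The matrix of an operator on the product. -/
noncomputable def opMat (T : (N → V) →L[ℂ] (N → V)) : Matrix N N (V →L[ℂ] V) :=
  Matrix.of fun i j => (ContinuousLinearMap.proj i).comp
    (T.comp (ContinuousLinearMap.single ℂ (fun _ : N => V) j))

lemma matOp_opMat (T : (N → V) →L[ℂ] (N → V)) : matOp (opMat T) = T := by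
  ext1 v
  funext i
  rw [matOp_apply, ← ContinuousLinearMap.sum_comp_single ℂ (fun _ : N => V) T v,
    Finset.sum_apply]
  rfl

lemma matOp_injective : Function.Injective (matOp : Matrix N N (V →L[ℂ] V) → _) := by
  intro M M' h
  ext i j x
  have := congrFun (congrArg (fun T : (N → V) →L[ℂ] (N → V) => T (Pi.single j x)) h) i
  simp only [matOp_apply] at this
  rw [Finset.sum_eq_single j, Finset.sum_eq_single j] at this
  · simpa using this
  · intro k _ hk; simp [Pi.single_eq_of_ne hk]
  · intro h; exact absurd (Finset.mem_univ j) h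
  · intro k _ hk; simp [Pi.single_eq_of_ne hk]
  · intro h; exact absurd (Finset.mem_univ j) h

lemma matOp_mul (M M' : Matrix N N (V →L[ℂ] V)) : matOp (M * M') = matOp M * matOp M' := by
  ext1 v
  funext i
  rw [mul_apply_eq_comp]
  simp only [matOp_apply, Matrix.mul_apply, _root_.sum_apply, map_sum,
    mul_apply_eq_comp]
  exact Finset.sum_comm

lemma matOp_FR (M : Matrix N N (V →L[ℂ] V)) (h : ∀ i j, FR (M i j)) : FR (matOp M) := by
  have : matOp M = ∑ i, (ContinuousLinearMap.single ℂ (fun _ : N => V) i).comp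
      (∑ j, (M i j).comp (ContinuousLinearMap.proj j)) := by
    ext1 v
    funext i
    rw [_root_.sum_apply, Finset.sum_apply, Finset.sum_eq_single i, matOp_apply]
    · simp
    · intro k _ hk; simp [Pi.single_eq_of_ne hk.symm]
    · intro h; exact absurd (Finset.mem_univ i) h
  rw [this]
  exact FR.sum _ _ fun i _ => FR.comp_left _ (FR.sum _ _ fun j _ => FR.comp_right _ (h i j))

lemma mat_regular (M : Matrix N N (V →L[ℂ] V)) (h : ∀ i j, FR (M i j)) :
    ∃ G : Matrix N N (V →L[ℂ] V), M * G * M = M := by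
  obtain ⟨b, hb⟩ := (matOp_FR M h).regular
  refine ⟨opMat b, matOp_injective ?_⟩
  rw [matOp_mul, matOp_mul, matOp_opMat, hb]

lemma mat_corner (e a : Matrix N N (V →L[ℂ] V)) (h : ∀ i j, FR (e i j)) (hee : e * e = e)
    (ha : e * a * e = a) : ∃ u v : Matrix N N (V →L[ℂ] V), e * u * e = u ∧ e * v * e = v ∧
      u * v = e ∧ v * u = e ∧ a = a * u * a := by
  obtain ⟨u, v, h1, h2, h3, h4, h5⟩ := (matOp_FR e h).corner (a := matOp a)
    (by rw [← matOp_mul, hee]) (by rw [← matOp_mul, ← matOp_mul, ha])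
  refine ⟨opMat u, opMat v, matOp_injective ?_, matOp_injective ?_, matOp_injective ?_,
    matOp_injective ?_, matOp_injective ?_⟩
  · rw [matOp_mul, matOp_mul, matOp_opMat, h1]
  · rw [matOp_mul, matOp_mul, matOp_opMat, h2]
  · rw [matOp_mul, matOp_opMat, matOp_opMat, h3]
  · rw [matOp_mul, matOp_opMat, matOp_opMat, h4]
  · rw [matOp_mul, matOp_mul, matOp_opMat, ← h5]

end FR

section Hilbert
variable {H : Type} [NormedAddCommGroup H] [InnerProductSpace ℂ H] [CompleteSpace H]
  {N : Type} [Fintype N] [DecidableEq N]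

open scoped ComplexOrder in
lemma mat_proper (M : Matrix N N (H →L[ℂ] H)) (h : star M * M = 0) : M = 0 := by
  ext i j : 1
  have h1 : ∑ k, star (M k j) * M k j = 0 := congrFun (congrFun h j) j
  rw [Finset.sum_eq_zero_iff_of_nonneg (fun k _ => star_mul_self_nonneg (M k j))] at h1
  exact (CStarRing.star_mul_self_eq_zero_iff _).1 (h1 i (Finset.mem_univ i))

end Hilbert

/-- The Hilbert space of square summable sequences. -/
abbrev HS : Type := lp (fun _ : ℕ => ℂ) 2

lemma exists_shift : ∃ S : HS →L[ℂ] HS, star S * S = 1 ∧ S * star S ≠ 1 ∧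
    FR (1 - S * star S) := by
  let b : HilbertBasis ℕ ℂ HS := default
  have hv : Orthonormal ℂ (b ∘ Nat.succ) := b.orthonormal.comp _ Nat.succ_injective
  let S0 : HS →ₗᵢ[ℂ] HS := hv.orthogonalFamily.linearIsometry.comp b.repr.toLinearIsometry
  let S : HS →L[ℂ] HS := S0.toContinuousLinearMap
  have hS : ∀ n, S (b n) = b (n + 1) := by
    intro n
    change hv.orthogonalFamily.linearIsometry (b.repr (b n)) = _
    rw [b.repr_self, hv.orthogonalFamily.linearIsometry_apply_single]
    simp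
  have h1 : star S * S = 1 := S.norm_map_iff_adjoint_comp_self.1 S0.norm_map
  have h2 : ∀ w, inner ℂ (b 0) (S w) = 0 := by
    intro w
    have := ((innerSL ℂ (b 0)).comp S).hasSum (b.hasSum_repr w)
    refine this.unique ?_
    convert hasSum_zero with n
    simp only [ContinuousLinearMap.comp_apply, map_smul, hS, innerSL_apply_apply]
    rw [b.orthonormal.inner_eq_zero (Nat.succ_ne_zero n).symm, smul_zero]
  refine ⟨S, h1, ?_, ?_⟩
  · intro h
    have h3 := h2 (star S (b 0))
    have h4 : S (star S (b 0)) = b 0 := congrArg (fun T : HS →L[ℂ] HS => T (b 0)) h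
    rw [h4, inner_self_eq_zero] at h3
    exact b.orthonormal.ne_zero 0 h3
  · set P := 1 - S * star S with hP
    have h3 : P * S = 0 := by rw [hP, sub_mul, one_mul, mul_assoc, h1, mul_one, sub_self]
    have h4 : ∀ n, P (b (n + 1)) = 0 := fun n => by
      rw [← hS]; exact congrArg (fun T : HS →L[ℂ] HS => T (b n)) h3
    unfold FR
    apply Submodule.finiteDimensional_of_le (S₂ := Submodule.span ℂ {P (b 0)})
    rintro _ ⟨w, rfl⟩
    have h5 := P.hasSum (b.hasSum_repr w)
    have h6 : HasSum (fun n => P (b.repr w n • b n)) (P (b.repr w 0 • b 0)) := by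
      apply hasSum_single
      intro n hn
      obtain ⟨n, rfl⟩ := Nat.exists_eq_succ_of_ne_zero hn
      rw [map_smul, h4, smul_zero]
    have h7 : P w = _ := h5.unique h6
    change P w ∈ _
    rw [h7, map_smul]
    exact Submodule.smul_mem _ _ (Submodule.mem_span_singleton_self _)

end Pool.Agent.H413Z
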