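import Mathlib

/-!
Passing to a subdirectly irreducible quotient of a ring with involution that is regular with
proper involution modulo an ideal.
-/

set_option autoImplicit false

namespace Pool.Agent.H413Z

/-- The quotient of a ring by a two-sided ideal that is closed under the involution. -/
def SQuot {T : Type} [Ring T] [StarRing T] (J : TwoSidedIdeal T)
    (_hJ : ∀ a : T, a ∈ J → star a ∈ J) : Type := J.ringCon.Quotient

section
variable {T : Type} [Ring T] [StarRing T] (J : TwoSidedIdeal T)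
    (hJ : ∀ a : T, a ∈ J → star a ∈ J)

instance : Ring (SQuot J hJ) := inferInstanceAs (Ring J.ringCon.Quotient)

/-- The quotient map. -/
def sqMk : T →+* SQuot J hJ := J.ringCon.mk'

lemma sqMk_surj : Function.Surjective (sqMk J hJ) := fun q => by
  induction q using Quotient.inductionOn' with
  | h a => exact ⟨a, rfl⟩

lemma sqMk_eq (a b : T) : sqMk J hJ a = sqMk J hJ b ↔ a - b ∈ J := by
  rw [← J.rel_iff]
  exact RingCon.eq J.ringCon

lemma sqMk_eq_zero (a : T) : sqMk J hJ a = 0 ↔ a ∈ J := by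
  rw [← (sqMk J hJ).map_zero, sqMk_eq, sub_zero]

noncomputable instance : Star (SQuot J hJ) where
  star q := sqMk J hJ (star (Function.surjInv (sqMk_surj J hJ) q))

lemma sqMk_star (a : T) : star (sqMk J hJ a) = sqMk J hJ (star a) := by
  change sqMk J hJ (star (Function.surjInv (sqMk_surj J hJ) (sqMk J hJ a))) = _
  rw [sqMk_eq, ← star_sub]
  apply hJ
  rw [← sqMk_eq J hJ]
  exact Function.surjInv_eq _ _

noncomputable instance : StarRing (SQuot J hJ) where
  star_involutive q := by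
    obtain ⟨a, rfl⟩ := sqMk_surj J hJ q
    rw [sqMk_star, sqMk_star, star_star]
  star_mul p q := by
    obtain ⟨a, rfl⟩ := sqMk_surj J hJ p
    obtain ⟨b, rfl⟩ := sqMk_surj J hJ q
    rw [← map_mul, sqMk_star, sqMk_star, sqMk_star, star_mul, map_mul]
  star_add p q := by
    obtain ⟨a, rfl⟩ := sqMk_surj J hJ p
    obtain ⟨b, rfl⟩ := sqMk_surj J hJ q
    rw [← map_add, sqMk_star, sqMk_star, sqMk_star, star_add, map_add]

end

/-- In a regular ring with proper involution every ideal is closed under `a* a ↦ a`. -/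
lemma ideal_proper {T : Type} [Ring T] [StarRing T]
    (hreg : ∀ a : T, ∃ g : T, a * g * a = a) (hp : ∀ a : T, star a * a = 0 → a = 0)
    (J : TwoSidedIdeal T) (a : T) (ha : star a * a ∈ J) : a ∈ J := by
  obtain ⟨g, hg⟩ := hreg (star a * a)
  have h1 : a * (g * (star a * a) - 1) = 0 := by
    apply hp
    have : star a * a * (g * (star a * a) - 1) = 0 := by
      rw [mul_sub, mul_one, ← mul_assoc, hg, sub_self]
    rw [star_mul, mul_assoc, ← mul_assoc (star a), this, mul_zero]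
  have h2 : a = a * g * (star a * a) := by
    rw [mul_sub, mul_one, sub_eq_zero, ← mul_assoc] at h1
    exact h1.symm
  rw [h2]
  exact J.mul_mem_left _ _ ha

lemma ideal_star {T : Type} [Ring T] [StarRing T]
    (hreg : ∀ a : T, ∃ g : T, a * g * a = a) (hp : ∀ a : T, star a * a = 0 → a = 0)
    (J : TwoSidedIdeal T) (a : T) (ha : a ∈ J) : star a ∈ J := by
  apply ideal_proper hreg hp
  rw [star_star]
  exact J.mul_mem_right _ _ ha

lemma exists_max_ideal {T : Type} [Ring T] (e : T) (he : e ≠ 0) :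
    ∃ J : TwoSidedIdeal T, e ∉ J ∧ ∀ K : TwoSidedIdeal T, J ≤ K → e ∉ K → K = J := by
  have h := zorn_le_nonempty₀ {K : TwoSidedIdeal T | e ∉ K} ?_ ⊥ (by simpa using he)
  · obtain ⟨J, -, hJ⟩ := h
    exact ⟨J, hJ.prop, fun K hK heK => le_antisymm (hJ.le_of_ge heK hK) hK⟩
  · intro c hc hchain y hy
    refine ⟨TwoSidedIdeal.mk' {x | ∃ K ∈ c, x ∈ K} ⟨y, hy, y.zero_mem⟩ ?_ ?_ ?_ ?_, ?_, ?_⟩
    · rintro a b ⟨K, hK, ha⟩ ⟨L, hL, hb⟩
      rcases hchain.total hK hL with h | h
      · exact ⟨L, hL, L.add_mem (h ha) hb⟩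
      · exact ⟨K, hK, K.add_mem ha (h hb)⟩
    · rintro a ⟨K, hK, ha⟩
      exact ⟨K, hK, K.neg_mem ha⟩
    · rintro a b ⟨K, hK, hb⟩
      exact ⟨K, hK, K.mul_mem_left _ _ hb⟩
    · rintro a b ⟨K, hK, ha⟩
      exact ⟨K, hK, K.mul_mem_right _ _ ha⟩
    · simp only [Set.mem_ofPred_eq, TwoSidedIdeal.mem_mk']
      rintro ⟨K, hK, h⟩
      exact hc hK h
    · intro K hK x hx
      rw [TwoSidedIdeal.mem_mk']
      exact ⟨K, hK, hx⟩

/-- A regular ring with proper involution and a one-sided invertible element that is not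
invertible has a subdirectly irreducible quotient of the same kind. -/
theorem exists_si {T : Type} [Ring T] [StarRing T]
    (hreg : ∀ a : T, ∃ g : T, a * g * a = a) (hp : ∀ a : T, star a * a = 0 → a = 0)
    (x y : T) (hyx : y * x = 1) (hxy : x * y ≠ 1) :
    ∃ (R : Type) (_ : Ring R) (_ : StarRing R) (f : T →+* R), Function.Surjective f ∧
      (∀ a, f (star a) = star (f a)) ∧ (∀ a : R, ∃ g : R, a * g * a = a) ∧
      (∀ a : R, star a * a = 0 → a = 0) ∧ f (1 - x * y) ≠ 0 ∧
      (∀ K : TwoSidedIdeal R, (∃ z ∈ K, z ≠ 0) → f (1 - x * y) ∈ K) ∧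
      ¬ ∀ a : R, ∃ u : Rˣ, a * (u : R) * a = a := by
  obtain ⟨J, hJe, hJmax⟩ := exists_max_ideal (1 - x * y) (sub_ne_zero.2 hxy.symm)
  have hJ := ideal_star hreg hp J
  refine ⟨SQuot J hJ, inferInstance, inferInstance, sqMk J hJ, sqMk_surj J hJ,
    fun a => (sqMk_star J hJ a).symm, ?_, ?_, ?_, ?_, ?_⟩
  · intro q
    obtain ⟨a, rfl⟩ := sqMk_surj J hJ q
    obtain ⟨g, hg⟩ := hreg a
    exact ⟨sqMk J hJ g, by rw [← map_mul, ← map_mul, hg]⟩
  · intro q hq
    obtain ⟨a, rfl⟩ := sqMk_surj J hJ q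
    rw [sqMk_star, ← map_mul, sqMk_eq_zero] at hq
    rw [sqMk_eq_zero]
    exact ideal_proper hreg hp J a hq
  · rw [Ne, sqMk_eq_zero]
    exact hJe
  · rintro K ⟨z, hzK, hz⟩
    obtain ⟨a, rfl⟩ := sqMk_surj J hJ z
    by_contra hne
    have h1 : K.comap (sqMk J hJ) = J := by
      apply hJmax
      · intro b hb
        rw [TwoSidedIdeal.mem_comap, (sqMk_eq_zero J hJ b).2 hb]
        exact K.zero_mem
      · rwa [TwoSidedIdeal.mem_comap]
    apply hz
    rw [sqMk_eq_zero, ← h1, TwoSidedIdeal.mem_comap]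
    exact hzK
  · intro h
    obtain ⟨u, hu⟩ := h (sqMk J hJ x)
    have h1 : sqMk J hJ y * sqMk J hJ x = 1 := by rw [← map_mul, hyx, map_one]
    have h2 : (u : SQuot J hJ) * sqMk J hJ x = 1 := by
      have := congrArg (fun t => sqMk J hJ y * t) hu
      simp only [← mul_assoc, h1, one_mul] at this
      exact this
    have h3 : sqMk J hJ x = ((u⁻¹ : (SQuot J hJ)ˣ) : SQuot J hJ) := by
      rw [← mul_one ((u⁻¹ : (SQuot J hJ)ˣ) : SQuot J hJ), ← h2, ← mul_assoc, Units.inv_mul,
        one_mul]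
    have h4 : sqMk J hJ y = (u : SQuot J hJ) := by
      rw [← mul_one (sqMk J hJ y), ← Units.inv_mul u, ← h3, ← mul_assoc, h1, one_mul]
    apply hJe
    rw [← sqMk_eq_zero J hJ, map_sub, map_one, map_mul, h3, h4, Units.inv_mul, sub_self]

/-- Unit-regularity of corners over an ideal passes to quotients of a regular ring. -/
theorem corner_quot {T R : Type} [Ring T] [Ring R] (f : T →+* R) (hf : Function.Surjective f)
    (hreg : ∀ a : T, ∃ g : T, a * g * a = a) (I : TwoSidedIdeal T)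
    (hI : ∀ p ∈ I, p * p = p → ∀ a : T, p * a * p = a →
      ∃ u v : T, p * u * p = u ∧ p * v * p = v ∧ u * v = p ∧ v * u = p ∧ a = a * u * a)
    (c : T) (hc : c ∈ I) (hcc : f c * f c = f c) (a : R) (ha : f c * a * f c = a) :
    ∃ u v : R, f c * u * f c = u ∧ f c * v * f c = v ∧ u * v = f c ∧ v * u = f c ∧
      a = a * u * a := by
  obtain ⟨g, hg⟩ := hreg c
  have h1 : c * g * (c * g) = c * g := by rw [← mul_assoc, hg]
  set q := c * g with hq
  have hqI : q ∈ I := I.mul_mem_right _ _ hc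
  have hqc : q * c = c := hg
  set p := q + q * c * (1 - q) with hpdef
  have hpI : p ∈ I := I.add_mem hqI (I.mul_mem_right _ _ (I.mul_mem_right _ _ hqI))
  have hpp : p * p = p := by
    have e1 : (1 - q) * q = 0 := by rw [sub_mul, one_mul, h1, sub_self]
    have e2 : q * (q * c * (1 - q)) = q * c * (1 - q) := by
      rw [← mul_assoc, ← mul_assoc, h1]
    have e3 : q * c * (1 - q) * q = 0 := by rw [mul_assoc, e1, mul_zero]
    have e4 : q * c * (1 - q) * (q * c * (1 - q)) = 0 := by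
      rw [← mul_assoc, ← mul_assoc, e3, zero_mul, zero_mul]
    rw [hpdef, add_mul, mul_add, mul_add, h1, e2, e3, e4, add_zero, add_zero]
  have hfp : f p = f c := by
    have e1 : f c * f q = f q := by rw [hq, map_mul, ← mul_assoc, hcc]
    rw [hpdef, hqc, map_add, map_mul f c (1 - q), map_sub, map_one, mul_sub, mul_one, e1]
    abel
  obtain ⟨b, rfl⟩ := hf a
  obtain ⟨u, v, h2, h3, h4, h5, h6⟩ := hI p hpI hpp (p * b * p) (by
    rw [← mul_assoc, ← mul_assoc, hpp, mul_assoc (p * b), hpp])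
  have hb : f (p * b * p) = f b := by rw [map_mul, map_mul, hfp, ha]
  refine ⟨f u, f v, ?_, ?_, ?_, ?_, ?_⟩
  · rw [← hfp, ← map_mul, ← map_mul, h2]
  · rw [← hfp, ← map_mul, ← map_mul, h3]
  · rw [← hfp, ← map_mul, h4]
  · rw [← hfp, ← map_mul, h5]
  · rw [← hb, ← map_mul, ← map_mul, ← h6]

end Pool.Agent.H413Z
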