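import Mathlib
import Pool.Agent.H413Z.Full

/-!
For every full matrix there are complex matrices `U`, `W` such that at the pair
`U D(s) W`, `W* D(t) U*` its determinant is a monomial in `s`, `t` times a polynomial that does
not vanish at the origin.
-/

set_option autoImplicit false
set_option linter.unusedSectionVars false

open Matrix Polynomial

namespace Pool.Agent.H413Z

lemma exists_pow_mul_not_dvd {R : Type} [CommRing R] (r g : R) (a : ℕ) (h : ¬ r ^ (a + 1) ∣ g) :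
    ∃ a1, a1 ≤ a ∧ ∃ h, g = r ^ a1 * h ∧ ¬ r ∣ h := by
  induction a with
  | zero => exact ⟨0, le_rfl, g, by simp, by simpa using h⟩
  | succ a ih =>
    by_cases h1 : r ^ (a + 1) ∣ g
    · obtain ⟨k, rfl⟩ := h1
      refine ⟨a + 1, le_rfl, k, rfl, fun hk => h ?_⟩
      rw [pow_succ r (a + 1)]
      exact mul_dvd_mul_left _ hk
    · obtain ⟨a1, h2, h3⟩ := ih h1
      exact ⟨a1, h2.trans (Nat.le_succ a), h3⟩

lemma exists_eval_s (h : ℂ[X][X]) (hh : ¬ X ∣ h) : ∃ t1 : ℂ, h.evalEval t1 0 ≠ 0 := by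
  by_contra hc
  push Not at hc
  apply hh
  rw [X_dvd_iff]
  apply Polynomial.funext
  intro t
  have := hc t
  rwa [evalEval, map_zero, ← coeff_zero_eq_eval_zero, ← eval_zero (x := t)] at this

lemma exists_eval_t (h : ℂ[X][X]) (hh : ¬ C X ∣ h) : ∃ s1 : ℂ, h.evalEval 0 s1 ≠ 0 := by
  by_contra hc
  push Not at hc
  apply hh
  have h0 : h.map (evalRingHom 0) = 0 := by
    apply Polynomial.funext
    intro s
    rw [map_evalRingHom_eval, hc s, eval_zero]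
  rw [C_dvd_iff_dvd_coeff]
  intro i
  rw [X_dvd_iff, coeff_zero_eq_eval_zero]
  have := congrArg (fun p : ℂ[X] => p.coeff i) h0
  simpa using this

lemma not_dvd_s (a b : ℕ) (p : ℂ[X][X]) (hp : p.evalEval 0 0 ≠ 0) :
    ¬ X ^ (a + 1) ∣ X ^ a * (C X ^ b * p) := by
  intro h
  rw [pow_succ, mul_dvd_mul_iff_left (pow_ne_zero a X_ne_zero)] at h
  have h1 := map_dvd (evalRingHom (0 : ℂ[X])) h
  simp only [coe_evalRingHom, eval_X, eval_mul, eval_pow, eval_C, zero_dvd_iff, mul_eq_zero,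
    pow_eq_zero_iff', X_ne_zero, false_and, false_or] at h1
  apply hp
  rw [evalEval, map_zero, h1, eval_zero]

lemma not_dvd_t (a b : ℕ) (p : ℂ[X][X]) (hp : p.evalEval 0 0 ≠ 0) :
    ¬ C X ^ (b + 1) ∣ X ^ a * (C X ^ b * p) := by
  intro h
  rw [mul_left_comm, pow_succ,
    mul_dvd_mul_iff_left (pow_ne_zero b (C_ne_zero.2 X_ne_zero))] at h
  have h1 := map_dvd (mapRingHom (evalRingHom (0 : ℂ))) h
  simp only [coe_mapRingHom, map_C, coe_evalRingHom, eval_X, map_zero, Polynomial.map_mul,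
    Polynomial.map_pow, map_X, zero_dvd_iff, mul_eq_zero, pow_eq_zero_iff', X_ne_zero, false_and,
    false_or] at h1
  apply hp
  rw [← map_evalRingHom_eval, h1, eval_zero]

lemma factor_st (a b : ℕ) (g : ℂ[X][X]) (h1 : X ^ a ∣ g) (h2 : C X ^ b ∣ g) :
    ∃ p, g = X ^ a * (C X ^ b * p) ∧ p.evalEval 0 0 = (g.coeff a).coeff b := by
  obtain ⟨h, rfl⟩ := h1
  rw [← C_pow, C_dvd_iff_dvd_coeff] at h2
  have h3 : C (X ^ b) ∣ h := by
    rw [C_dvd_iff_dvd_coeff]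
    intro i
    have := h2 (i + a)
    rwa [coeff_X_pow_mul] at this
  obtain ⟨p, rfl⟩ := h3
  refine ⟨p, by rw [C_pow], ?_⟩
  have e1 := coeff_X_pow_mul (C (X ^ b) * p) a 0
  have e2 := coeff_X_pow_mul (p.coeff 0) b 0
  rw [zero_add] at e1 e2
  rw [e1, coeff_C_mul, e2, evalEval, map_zero, ← coeff_zero_eq_eval_zero,
    ← coeff_zero_eq_eval_zero]

variable {n N K K' : Type} [Fintype n] [DecidableEq n] [Fintype N] [DecidableEq N]
  [CommRing K] [CommRing K']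

/-- The identity matrix with one diagonal entry replaced. -/
def dg {S : Type} [Ring S] (i0 : N) (u : S) : Matrix N N S :=
  diagonal fun i => if i = i0 then u else 1

lemma dg_map {S S' : Type} [Ring S] [Ring S'] (f : S →+* S') (i0 : N) (u : S) :
    (dg i0 u).map f = dg i0 (f u) := by
  unfold dg
  rw [diagonal_map (map_zero f)]
  congr 1
  funext i
  by_cases h : i = i0 <;> simp [h]

lemma dg_one {S : Type} [Ring S] (i0 : N) : dg i0 (1 : S) = 1 := by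
  unfold dg
  simp

lemma dg_inl {S : Type} [Ring S] (i0 : N) (u : S) :
    dg (Sum.inl i0 : N ⊕ N) u = fromBlocks (dg i0 u) 0 0 1 := by
  unfold dg
  rw [← diagonal_one, fromBlocks_diagonal]
  congr 1
  funext i
  rcases i with i | i <;> simp

/-- `U D(u) W` over a ring `S` that receives the coefficients. -/
def sand {S : Type} [Ring S] (f : K →+* S) (i0 : N) (u : S) (U W : Matrix N N K) :
    Matrix N N S := U.map f * dg i0 u * W.map f

lemma sand_map {S S' : Type} [Ring S] [Ring S'] (f : K →+* S) (φ : S →+* S') (i0 : N) (u : S)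
    (U W : Matrix N N K) : (sand f i0 u U W).map φ = sand (φ.comp f) i0 (φ u) U W := by
  unfold sand
  rw [Matrix.map_mul, Matrix.map_mul, dg_map]
  rfl

lemma sand_comp {S : Type} [Ring S] (f : K →+* K') (φ : K' →+* S) (i0 : N) (u : S)
    (U W : Matrix N N K) : sand φ i0 u (U.map f) (W.map f) = sand (φ.comp f) i0 u U W := rfl

/-- Constants in the ring of polynomials in two variables. -/
noncomputable def cc (K : Type) [CommRing K] : K →+* K[X][X] := C.comp C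

/-- The determinant at the pair `U D(s) W`, `W' D(t) U'`. -/
noncomputable def gg (A : Matrix n n FP) (i0 : N) (U W U' W' : Matrix N N K) : K[X][X] :=
  dl A (sand (cc K) i0 X U W) (sand (cc K) i0 (C X) W' U')

lemma gg_map (f : K →+* K') (A : Matrix n n FP) (i0 : N) (U W U' W' : Matrix N N K) :
    gg A i0 (U.map f) (W.map f) (U'.map f) (W'.map f) =
      (gg A i0 U W U' W').map (mapRingHom f) := by
  have h : (mapRingHom (mapRingHom f)).comp (cc K) = (cc K').comp f := by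
    ext1 x; simp [cc]
  unfold gg
  rw [← coe_mapRingHom, ← dl_map, sand_map, sand_map, h, sand_comp, sand_comp]
  simp

lemma gg_double (A : Matrix n n FP) (i0 : N) (U1 W1 U1' W1' U2 W2 U2' W2' : Matrix N N ℂ)
    (t1 s1 : ℂ) : ∃ U W U' W' : Matrix (N ⊕ N) (N ⊕ N) ℂ, gg A (Sum.inl i0) U W U' W' =
      mapRingHom (C.comp (evalRingHom t1)) (gg A i0 U1 W1 U1' W1') *
      (C : ℂ[X] →+* ℂ[X][X]).comp (evalRingHom (C s1)) (gg A i0 U2 W2 U2' W2') := by
  refine ⟨fromBlocks U1 0 0 (sand (RingHom.id ℂ) i0 s1 U2 W2), fromBlocks W1 0 0 1,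
    fromBlocks 0 U2' 1 0, fromBlocks 0 (sand (RingHom.id ℂ) i0 t1 W1' U1') W2' 0, ?_⟩
  have h1 : (mapRingHom (C.comp (evalRingHom t1))).comp (cc ℂ) = cc ℂ := by
    ext1 x; simp [cc]
  have h2 : ((C : ℂ[X] →+* ℂ[X][X]).comp (evalRingHom (C s1))).comp (cc ℂ) = cc ℂ := by
    ext1 x; simp [cc]
  have h3 : (cc ℂ).comp (RingHom.id ℂ) = cc ℂ := rfl
  unfold gg
  rw [← dl_map, ← dl_map, sand_map, sand_map, sand_map, sand_map, h1, h2, ← dl_bsum]
  congr 1
  · rw [sand, dg_inl, fromBlocks_map, fromBlocks_map, sand_map, h3]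
    simp [fromBlocks_multiply, sand, cc]
  · rw [sand, dg_inl, fromBlocks_map, fromBlocks_map, sand_map, h3]
    simp [fromBlocks_multiply, sand, cc]

/-- The set over which the total order of vanishing is minimised. -/
def Bad (A : Matrix n n FP) (c : ℕ) : Prop :=
  ∃ (N : Type) (_ : Fintype N) (_ : DecidableEq N) (i0 : N) (a b : ℕ), a + b = c ∧
    (∃ U W U' W' : Matrix N N ℂ, ¬ X ^ (a + 1) ∣ gg A i0 U W U' W') ∧
    (∃ U W U' W' : Matrix N N ℂ, ¬ C X ^ (b + 1) ∣ gg A i0 U W U' W')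

lemma exists_not_pow_dvd {R : Type} [CommRing R] [IsDomain R] [WfDvdMonoid R] (r g : R)
    (hr : ¬ IsUnit r) (hg : g ≠ 0) : ∃ a, ¬ r ^ (a + 1) ∣ g :=
  FiniteMultiplicity.of_not_isUnit hr hg

lemma exists_bad (A : Matrix n n FP) (hA : Full A) : ∃ c, Bad A c := by
  obtain ⟨k, hk, X0, Y0, h⟩ := hA
  let i0 : Fin k := ⟨0, hk⟩
  have hg : gg A i0 X0 1 1 Y0 ≠ 0 := by
    intro h0
    apply h
    have h1 : (evalEvalRingHom (1 : ℂ) 1).comp (cc ℂ) = RingHom.id ℂ := by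
      ext1 x; simp [cc]
    have := congrArg (evalEvalRingHom (1 : ℂ) 1) h0
    unfold gg at this
    rw [← dl_map, sand_map, sand_map, h1, map_zero] at this
    simpa [sand, dg_one] using this
  obtain ⟨a, ha⟩ := exists_not_pow_dvd X _ not_isUnit_X hg
  obtain ⟨b, hb⟩ := exists_not_pow_dvd (C X) _ (by rw [isUnit_C]; exact not_isUnit_X) hg
  exact ⟨a + b, Fin k, inferInstance, inferInstance, i0, a, b, rfl, ⟨_, _, _, _, ha⟩,
    ⟨_, _, _, _, hb⟩⟩

lemma exists_stable (A : Matrix n n FP) (hA : Full A) :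
    ∃ (N : Type) (_ : Fintype N) (_ : DecidableEq N) (i0 : N) (a b : ℕ),
      (∀ U W U' W' : Matrix N N ℂ, X ^ a ∣ gg A i0 U W U' W') ∧
      (∀ U W U' W' : Matrix N N ℂ, C X ^ b ∣ gg A i0 U W U' W') ∧
      ∃ U W U' W' : Matrix N N ℂ, ((gg A i0 U W U' W').coeff a).coeff b ≠ 0 := by
  classical
  have hex := exists_bad A hA
  obtain ⟨N, _, _, i0, a, b, hab, ⟨U1, W1, U1', W1', h1⟩, ⟨U2, W2, U2', W2', h2⟩⟩ :=
    Nat.find_spec hex
  obtain ⟨a1, ha1, p1, e1, hp1⟩ := exists_pow_mul_not_dvd _ _ _ h1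
  obtain ⟨b1, hb1, p2, e2, hp2⟩ := exists_pow_mul_not_dvd _ _ _ h2
  obtain ⟨t1, ht1⟩ := exists_eval_s p1 hp1
  obtain ⟨s1, hs1⟩ := exists_eval_t p2 hp2
  obtain ⟨U, W, U', W', e⟩ := gg_double A i0 U1 W1 U1' W1' U2 W2 U2' W2' t1 s1
  set p : ℂ[X][X] := mapRingHom (C.comp (evalRingHom t1)) p1 *
    (C : ℂ[X] →+* ℂ[X][X]).comp (evalRingHom (C s1)) p2 with hpdef
  have e3 : gg A (Sum.inl i0) U W U' W' = X ^ a1 * (C X ^ b1 * p) := by
    rw [e, e1, e2, map_mul, map_mul, map_pow, map_pow, hpdef]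
    simp only [coe_mapRingHom, map_X, RingHom.coe_comp, coe_evalRingHom, Function.comp_apply,
      eval_C]
    ring
  have hp : p.evalEval 0 0 ≠ 0 := by
    rw [hpdef, evalEval_mul]
    apply mul_ne_zero
    · have : (evalEvalRingHom (0 : ℂ) 0).comp (mapRingHom (C.comp (evalRingHom t1))) =
          evalEvalRingHom t1 0 := by
        ext <;> simp
      have h3 := congrArg (fun f : ℂ[X][X] →+* ℂ => f p1) this
      exact fun h4 => ht1 (h3.symm.trans h4)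
    · simpa [evalEval_C] using hs1
  have n1 : ¬ X ^ (a1 + 1) ∣ gg A (Sum.inl i0) U W U' W' := by
    rw [e3]; exact not_dvd_s _ _ _ hp
  have n2 : ¬ C X ^ (b1 + 1) ∣ gg A (Sum.inl i0) U W U' W' := by
    rw [e3]; exact not_dvd_t _ _ _ hp
  have hmin : ∀ a' b' : ℕ,
      (∃ U W U' W' : Matrix (N ⊕ N) (N ⊕ N) ℂ, ¬ X ^ (a' + 1) ∣ gg A (Sum.inl i0) U W U' W') →
      (∃ U W U' W' : Matrix (N ⊕ N) (N ⊕ N) ℂ, ¬ C X ^ (b' + 1) ∣ gg A (Sum.inl i0) U W U' W') →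
      a + b ≤ a' + b' := by
    intro a' b' h3 h4
    rw [hab]
    exact Nat.find_min' hex ⟨N ⊕ N, inferInstance, inferInstance, Sum.inl i0, a', b', rfl, h3, h4⟩
  have d1 : ∀ U W U' W' : Matrix (N ⊕ N) (N ⊕ N) ℂ, X ^ a1 ∣ gg A (Sum.inl i0) U W U' W' := by
    intro V Z V' Z'
    rcases a1 with _ | a1
    · simp
    · by_contra hc
      have := hmin a1 b1 ⟨_, _, _, _, hc⟩ ⟨_, _, _, _, n2⟩
      omega
  have d2 : ∀ U W U' W' : Matrix (N ⊕ N) (N ⊕ N) ℂ, C X ^ b1 ∣ gg A (Sum.inl i0) U W U' W' := by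
    intro V Z V' Z'
    rcases b1 with _ | b1
    · simp
    · by_contra hc
      have := hmin a1 b1 ⟨_, _, _, _, n1⟩ ⟨_, _, _, _, hc⟩
      omega
  refine ⟨N ⊕ N, inferInstance, inferInstance, Sum.inl i0, a1, b1, d1, d2, U, W, U', W', ?_⟩
  obtain ⟨p', e4, e5⟩ := factor_st a1 b1 _ (d1 U W U' W') (d2 U W U' W')
  rw [← e5]
  have : p' = p := by
    rw [e3] at e4
    exact (mul_left_cancel₀ (pow_ne_zero _ (C_ne_zero.2 X_ne_zero))
      (mul_left_cancel₀ (pow_ne_zero _ X_ne_zero) e4)).symm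
  rwa [this]

lemma line_poly (A : Matrix n n FP) (i0 : N) (a b : ℕ)
    (P1 Q1 P2 Q2 P3 Q3 P4 Q4 : Matrix N N ℂ) : ∃ q : ℂ[X], ∀ μ : ℂ, q.eval μ =
      ((gg A i0 (P1 + μ • Q1) (P2 + μ • Q2) (P3 + μ • Q3) (P4 + μ • Q4)).coeff a).coeff b := by
  have hline : ∀ (μ : ℂ) (P Q : Matrix N N ℂ),
      (P.map C + (X : ℂ[X]) • Q.map C).map (evalRingHom μ) = P + μ • Q := by
    intro μ P Q
    ext i j
    simp only [Matrix.map_apply, Matrix.add_apply, Matrix.smul_apply, smul_eq_mul,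
      coe_evalRingHom, eval_add, eval_mul, eval_C, eval_X]
  refine ⟨((gg A i0 (P1.map C + (X : ℂ[X]) • Q1.map C) (P2.map C + (X : ℂ[X]) • Q2.map C)
    (P3.map C + (X : ℂ[X]) • Q3.map C) (P4.map C + (X : ℂ[X]) • Q4.map C)).coeff a).coeff b,
    fun μ => ?_⟩
  rw [← hline, ← hline, ← hline, ← hline, gg_map, coeff_map, coe_mapRingHom, coeff_map,
    coe_evalRingHom]

lemma exists_real_point (A : Matrix n n FP) (i0 : N) (a b : ℕ) (U0 W0 U0' W0' : Matrix N N ℂ)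
    (h : ((gg A i0 U0 W0 U0' W0').coeff a).coeff b ≠ 0) :
    ∃ U W : Matrix N N ℂ, ((gg A i0 U W Uᴴ Wᴴ).coeff a).coeff b ≠ 0 := by
  by_contra hc
  push Not at hc
  have hc' : ∀ (P1 Q1 P2 Q2 : Matrix N N ℂ) (m : ℕ),
      ((gg A i0 (P1 + (m : ℂ) • Q1) (P2 + (m : ℂ) • Q2) (P1ᴴ + (m : ℂ) • Q1ᴴ)
        (P2ᴴ + (m : ℂ) • Q2ᴴ)).coeff a).coeff b = 0 := by
    intro P1 Q1 P2 Q2 m
    have := hc (P1 + (m : ℂ) • Q1) (P2 + (m : ℂ) • Q2)
    rwa [conjTranspose_add, conjTranspose_add, conjTranspose_smul, conjTranspose_smul,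
      star_natCast] at this
  obtain ⟨q, hq⟩ := line_poly A i0 a b ((2⁻¹ : ℂ) • (U0 + U0'ᴴ))
    ((2⁻¹ * -Complex.I : ℂ) • (U0 - U0'ᴴ)) ((2⁻¹ : ℂ) • (W0 + W0'ᴴ))
    ((2⁻¹ * -Complex.I : ℂ) • (W0 - W0'ᴴ)) ((2⁻¹ : ℂ) • (U0 + U0'ᴴ))ᴴ
    ((2⁻¹ * -Complex.I : ℂ) • (U0 - U0'ᴴ))ᴴ ((2⁻¹ : ℂ) • (W0 + W0'ᴴ))ᴴ
    ((2⁻¹ * -Complex.I : ℂ) • (W0 - W0'ᴴ))ᴴ
  have hq0 : q = 0 := by
    apply eq_zero_of_infinite_isRoot
    apply Set.infinite_of_injective_forall_mem (f := fun m : ℕ => (m : ℂ)) Nat.cast_injective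
    intro m
    change q.eval (m : ℂ) = 0
    rw [hq, hc']
  apply h
  have h1 := hq Complex.I
  rw [hq0, eval_zero] at h1
  have k1 : ∀ P Q : Matrix N N ℂ, (2⁻¹ : ℂ) • (P + Qᴴ) +
      Complex.I • (2⁻¹ * -Complex.I : ℂ) • (P - Qᴴ) = P := by
    intro P Q
    ext i j
    simp only [Matrix.add_apply, Matrix.smul_apply, Matrix.sub_apply, smul_eq_mul]
    linear_combination (-2⁻¹ * (P i j - Qᴴ i j)) * Complex.I_mul_I
  have k2 : ∀ P Q : Matrix N N ℂ, ((2⁻¹ : ℂ) • (P + Qᴴ))ᴴ +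
      Complex.I • ((2⁻¹ * -Complex.I : ℂ) • (P - Qᴴ))ᴴ = Q := by
    intro P Q
    rw [conjTranspose_smul, conjTranspose_smul, conjTranspose_add, conjTranspose_sub,
      conjTranspose_conjTranspose]
    ext i j
    simp only [Matrix.add_apply, Matrix.smul_apply, Matrix.sub_apply, smul_eq_mul, star_mul',
      star_neg, star_inv₀, star_ofNat, Complex.star_def, Complex.conj_I]
    linear_combination (2⁻¹ * (Pᴴ i j - Q i j)) * Complex.I_mul_I
  rw [k1, k1, k2, k2] at h1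
  exact h1.symm

/-- The main algebraic statement. -/
theorem exists_good_point (A : Matrix n n FP) (hA : Full A) :
    ∃ (N : Type) (_ : Fintype N) (_ : DecidableEq N) (i0 : N) (U W : Matrix N N ℂ) (a b : ℕ)
      (p : ℂ[X][X]), p.evalEval 0 0 ≠ 0 ∧ gg A i0 U W Uᴴ Wᴴ = X ^ a * (C X ^ b * p) := by
  obtain ⟨N, _, _, i0, a, b, h1, h2, U0, W0, U0', W0', h3⟩ := exists_stable A hA
  obtain ⟨U, W, h4⟩ := exists_real_point A i0 a b U0 W0 U0' W0' h3
  obtain ⟨p, e1, e2⟩ := factor_st a b _ (h1 U W Uᴴ Wᴴ) (h2 U W Uᴴ Wᴴ)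
  exact ⟨N, inferInstance, inferInstance, i0, U, W, a, b, p, by rwa [e2], e1⟩

end Pool.Agent.H413Z
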