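import Mathlib
import Pool.Agent.H413Z.SI
import Pool.Agent.H413Z.Dich
import Pool.Agent.H413Z.StepB
import Pool.Agent.H413Z.Hilb

/-!
Block Toeplitz operators of index minus one at which given full matrices become invertible modulo
finite rank operators.
-/

set_option autoImplicit false
set_option linter.unusedSectionVars false

open Matrix Polynomial Filter Topology

namespace Pool.Agent.H413Z

/-- Bounded operators on the sequence space. -/
abbrev BH : Type := HS →L[ℂ] HS

/-- The ideal of operators of finite rank (with adjoint of finite rank). -/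
noncomputable def FI : TwoSidedIdeal BH :=
  TwoSidedIdeal.mk' {a | FR a ∧ FR (star a)} ⟨FR.zero, by rw [star_zero]; exact FR.zero⟩
    (fun {a b} ha hb => ⟨ha.1.add hb.1, by rw [star_add]; exact ha.2.add hb.2⟩)
    (fun {a} ha => ⟨by rw [← neg_one_mul]; exact FR.comp_left _ ha.1,
      by rw [star_neg, ← neg_one_mul]; exact FR.comp_left _ ha.2⟩)
    (fun {a b} hb => ⟨FR.comp_left _ hb.1, by rw [star_mul]; exact FR.comp_right _ hb.2⟩)
    (fun {a b} ha => ⟨FR.comp_right _ ha.1, by rw [star_mul]; exact FR.comp_left _ ha.2⟩)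

lemma mem_FI (a : BH) : a ∈ FI ↔ FR a ∧ FR (star a) := TwoSidedIdeal.mem_mk' _ _ _ _ _ _ _

lemma FI_star (a : BH) (ha : a ∈ FI) : star a ∈ FI := by
  rw [mem_FI] at *
  exact ⟨ha.2, by rw [star_star]; exact ha.1⟩

/-- Bounded operators modulo finite rank operators. -/
abbrev QH : Type := SQuot FI FI_star

/-- The quotient map. -/
noncomputable abbrev mkQ : BH →+* QH := sqMk FI FI_star

lemma exists_phi (S : BH) (h1 : star S * S = 1) (h3 : FR (1 - S * star S)) (p : ℂ[X][X])
    (hp : p.evalEval 0 0 ≠ 0) : ∃ (ε : ℝ) (φ : ℂ[X][X] →+* QH), ε ≠ 0 ∧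
      φ X = mkQ ((ε : ℂ) • S) ∧ φ (C X) = mkQ ((ε : ℂ) • star S) ∧
      φ.comp (cc ℂ) = mkQ.comp (algebraMap ℂ BH) ∧ IsUnit (φ p) ∧ IsUnit (φ X) ∧
      IsUnit (φ (C X)) := by
  let F : ℝ → BH := fun ε => p.eval₂ (aeval ((ε : ℂ) • star S)).toRingHom ((ε : ℂ) • S)
  have hF : Continuous F := by
    simp only [F, eval₂_eq_sum, Polynomial.sum]
    apply continuous_finsetSum
    intro i _
    apply Continuous.mul
    · exact (Polynomial.continuous_aeval (p.coeff i)).comp (by fun_prop)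
    · fun_prop
  have hF0 : IsUnit (F 0) := by
    have : F 0 = algebraMap ℂ BH (p.evalEval 0 0) := by
      simp only [F, Complex.ofReal_zero, zero_smul, eval₂_at_zero]
      rw [evalEval, map_zero, ← coeff_zero_eq_eval_zero, ← coeff_zero_eq_eval_zero]
      exact (coeff_zero_eq_aeval_zero' _).symm
    rw [this]
    exact (IsUnit.mk0 _ hp).map _
  have hev : ∀ᶠ ε in 𝓝 (0 : ℝ), IsUnit (F ε) :=
    hF.continuousAt.eventually (Units.isOpen.mem_nhds hF0)
  obtain ⟨ε, hε1, hε2⟩ :=
    ((hev.filter_mono nhdsWithin_le_nhds).and (self_mem_nhdsWithin (s := {0}ᶜ))).exists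
  have hε : (ε : ℂ) ≠ 0 := by exact_mod_cast hε2
  have e1 : mkQ (star S) * mkQ S = 1 := by rw [← map_mul, h1, map_one]
  have e2 : mkQ S * mkQ (star S) = 1 := by
    rw [← map_mul, ← map_one mkQ, eq_comm, sqMk_eq, mem_FI]
    exact ⟨h3, by rw [star_sub, star_one, star_mul, star_star]; exact h3⟩
  have hc : ∀ (c : ℂ) (q : QH), Commute (mkQ (algebraMap ℂ BH c)) q := by
    intro c q
    obtain ⟨a, rfl⟩ := sqMk_surj _ _ q
    exact Commute.map (Algebra.commutes c a) mkQ
  have u0 : IsUnit (mkQ (algebraMap ℂ BH ε)) := ((IsUnit.mk0 _ hε).map _).map _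
  have u1 : IsUnit (mkQ ((ε : ℂ) • S)) := by
    rw [Algebra.smul_def, map_mul]
    exact u0.mul ⟨⟨_, _, e2, e1⟩, rfl⟩
  have u2 : IsUnit (mkQ ((ε : ℂ) • star S)) := by
    rw [Algebra.smul_def, map_mul]
    exact u0.mul ⟨⟨_, _, e1, e2⟩, rfl⟩
  have hcomm : Commute (mkQ ((ε : ℂ) • star S)) (mkQ ((ε : ℂ) • S)) := by
    rw [Algebra.smul_def, Algebra.smul_def, map_mul, map_mul]
    have : Commute (mkQ (star S)) (mkQ S) := e1.trans e2.symm
    exact Commute.mul_left (hc _ _) (Commute.mul_right (hc _ _).symm this)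
  let f1 : ℂ[X] →+* QH := mkQ.comp (aeval ((ε : ℂ) • star S)).toRingHom
  have hf1 : ∀ a, Commute (f1 a) (mkQ ((ε : ℂ) • S)) := by
    intro a
    have : f1 a = a.eval₂ (mkQ.comp (algebraMap ℂ BH)) (mkQ ((ε : ℂ) • star S)) := by
      rw [← hom_eval₂]; rfl
    rw [this, eval₂_eq_sum, Polynomial.sum]
    apply Commute.sum_left
    intro i _
    exact Commute.mul_left (hc _ _) (hcomm.pow_left _)
  have hφ : ∀ q, eval₂RingHom' f1 _ hf1 q = q.eval₂ f1 (mkQ ((ε : ℂ) • S)) := fun q => rfl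
  have k1 : eval₂RingHom' f1 _ hf1 X = mkQ ((ε : ℂ) • S) := by rw [hφ, eval₂_X]
  have k2 : eval₂RingHom' f1 _ hf1 (C X) = mkQ ((ε : ℂ) • star S) := by
    rw [hφ, eval₂_C]; simp [f1]
  refine ⟨ε, eval₂RingHom' f1 _ hf1, hε2, k1, k2, ?_, ?_, by rwa [k1], by rwa [k2]⟩
  · ext1 c
    change eval₂RingHom' f1 _ hf1 (C (C c)) = _
    rw [hφ, eval₂_C]; simp [f1]
  · rw [hφ, ← hom_eval₂]
    exact hε1.map _

section
variable {n N : Type} [Fintype n] [DecidableEq n] [Fintype N] [DecidableEq N]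

lemma dg_mul {S : Type} [Ring S] (i0 : N) (u v : S) : dg i0 u * dg i0 v = dg i0 (u * v) := by
  unfold dg
  rw [diagonal_mul_diagonal]
  congr 1
  funext i
  by_cases h : i = i0 <;> simp [h]

lemma dg_star {S : Type} [Ring S] [StarRing S] (i0 : N) (u : S) :
    star (dg i0 u) = dg i0 (star u) := by
  unfold dg
  rw [star_eq_conjTranspose, diagonal_conjTranspose]
  congr 1
  funext i
  by_cases h : i = i0 <;> simp [h]

lemma map_algebraMap_star (U : Matrix N N ℂ) :
    star (U.map (algebraMap ℂ BH)) = Uᴴ.map (algebraMap ℂ BH) := by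
  ext i j : 1
  simp only [star_apply, Matrix.map_apply, conjTranspose_apply, algebraMap_star_comm]

theorem exists_model (A : Matrix n n FP) (hA : Full A) :
    ∃ (N : Type) (_ : Fintype N) (_ : DecidableEq N) (_ : Nonempty N) (x y : Matrix N N BH),
      y * x = 1 ∧ x * y ≠ 1 ∧ mkQ.mapMatrix (1 - x * y) = 0 ∧
      ∃ (X0 Y0 : Matrix N N ℂ[X][X]) (φ : ℂ[X][X] →+* QH), X0.map φ = x.map mkQ ∧
        Y0.map φ = (star x).map mkQ ∧ IsUnit (φ (dl A X0 Y0)) ∧ dl A X0 Y0 ≠ 0 := by
  obtain ⟨N, _, _, i0, U, W, a, b, p, hp, hg⟩ := exists_good_point _ (full_upper 0 hA full_genA)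
  obtain ⟨S, h1, h2, h3⟩ := exists_shift
  obtain ⟨ε, φ, hε, k1, k2, k3, u1, u2, u3⟩ := exists_phi S h1 h3 p hp
  have hε' : (ε : ℂ) ≠ 0 := by exact_mod_cast hε
  unfold gg at hg
  rw [dl_upper, dl_genA] at hg
  have hne : X ^ a * (C X ^ b * p) ≠ 0 := by
    refine mul_ne_zero (pow_ne_zero _ X_ne_zero)
      (mul_ne_zero (pow_ne_zero _ (C_ne_zero.2 X_ne_zero)) ?_)
    rintro rfl
    exact hp (evalEval_zero _ _)
  rw [← hg] at hne
  have hdet := right_ne_zero_of_mul hne
  rw [sand, det_mul, det_mul] at hdet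
  have hU : IsUnit U.det := by
    apply IsUnit.mk0
    intro h
    apply left_ne_zero_of_mul (left_ne_zero_of_mul hdet)
    rw [← RingHom.mapMatrix_apply, ← RingHom.map_det, h, map_zero]
  have hW : IsUnit W.det := by
    apply IsUnit.mk0
    intro h
    apply right_ne_zero_of_mul hdet
    rw [← RingHom.mapMatrix_apply, ← RingHom.map_det, h, map_zero]
  set am := algebraMap ℂ BH with ham
  have hone : (1 : Matrix N N ℂ).map am = 1 := Matrix.map_one _ (map_zero _) (map_one _)
  have i1 : U⁻¹.map am * U.map am = 1 := by rw [← Matrix.map_mul, nonsing_inv_mul _ hU, hone]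
  have i2 : U.map am * U⁻¹.map am = 1 := by rw [← Matrix.map_mul, mul_nonsing_inv _ hU, hone]
  have i3 : W⁻¹.map am * W.map am = 1 := by rw [← Matrix.map_mul, nonsing_inv_mul _ hW, hone]
  have i4 : W.map am * W⁻¹.map am = 1 := by rw [← Matrix.map_mul, mul_nonsing_inv _ hW, hone]
  have s1 : ((ε : ℂ)⁻¹ • star S) * ((ε : ℂ) • S) = 1 := by
    rw [smul_mul_smul_comm, inv_mul_cancel₀ hε', one_smul, h1]
  have s2 : ((ε : ℂ) • S) * ((ε : ℂ)⁻¹ • star S) = S * star S := by
    rw [smul_mul_smul_comm, mul_inv_cancel₀ hε', one_smul]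
  have hxy : sand am i0 ((ε : ℂ) • S) U W * sand am i0 ((ε : ℂ)⁻¹ • star S) W⁻¹ U⁻¹ =
      U.map am * dg i0 (S * star S) * U⁻¹.map am := by
    calc _ = U.map am * (dg i0 ((ε : ℂ) • S) * (W.map am * W⁻¹.map am) *
          dg i0 ((ε : ℂ)⁻¹ • star S)) * U⁻¹.map am := by simp only [sand, Matrix.mul_assoc]
      _ = _ := by rw [i4, Matrix.mul_one, dg_mul, s2]
  refine ⟨N, inferInstance, inferInstance, ⟨i0⟩, sand am i0 ((ε : ℂ) • S) U W,
    sand am i0 ((ε : ℂ)⁻¹ • star S) W⁻¹ U⁻¹, ?_, ?_, ?_, _, _, φ, ?_, ?_, ?_,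
    left_ne_zero_of_mul hne⟩
  · calc _ = W⁻¹.map am * (dg i0 ((ε : ℂ)⁻¹ • star S) * (U⁻¹.map am * U.map am) *
          dg i0 ((ε : ℂ) • S)) * W.map am := by simp only [sand, Matrix.mul_assoc]
      _ = _ := by rw [i1, Matrix.mul_one, dg_mul, s1, dg_one, Matrix.mul_one, i3]
  · rw [hxy]
    intro h
    have h4 : dg i0 (S * star S) = 1 := by
      calc _ = (U⁻¹.map am * U.map am) * dg i0 (S * star S) * (U⁻¹.map am * U.map am) := by
            rw [i1, Matrix.one_mul, Matrix.mul_one]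
        _ = U⁻¹.map am * (U.map am * dg i0 (S * star S) * U⁻¹.map am) * U.map am := by
            simp only [Matrix.mul_assoc]
        _ = 1 := by rw [h, Matrix.mul_one, i1]
    have h5 := congrFun (congrFun h4 i0) i0
    simp only [dg, diagonal_apply_eq, if_true, one_apply_eq] at h5
    exact h2 h5
  · have e2 : mkQ (S * star S) = 1 := by
      rw [← map_one mkQ, eq_comm, sqMk_eq, mem_FI]
      exact ⟨h3, by rw [star_sub, star_one, star_mul, star_star]; exact h3⟩
    rw [hxy, map_sub, map_one, map_mul, map_mul, RingHom.mapMatrix_apply (M := dg i0 _), dg_map,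
      e2, dg_one, mul_one, ← map_mul, i2, map_one, sub_self]
  · rw [sand_map, sand_map, k1, k3]
  · have : star (sand am i0 ((ε : ℂ) • S) U W) = sand am i0 ((ε : ℂ) • star S) Wᴴ Uᴴ := by
      rw [sand, sand, star_mul, star_mul, map_algebraMap_star, map_algebraMap_star, dg_star,
        star_smul, Matrix.mul_assoc]
      simp [ham]
    rw [this, sand_map, sand_map, k2, k3]
  · have h4 : IsUnit (φ (X ^ a * (C X ^ b * p))) := by
      rw [map_mul, map_mul, map_pow, map_pow]
      exact (u2.pow a).mul ((u3.pow b).mul u1)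
    rw [← hg, map_mul] at h4
    exact ((Commute.all _ _).map φ).isUnit_mul_iff.1 h4 |>.1

/-- What a model does with a full matrix. -/
def Handles {Q : Type} [Ring Q] (ψ : FP →+* Q) (A : Matrix n n FP) : Prop :=
  IsUnit (A.map ψ) ∧ ∀ b c : n → FP, ¬ Full (border A b c) → ∀ w : n → Q,
    A.map ψ *ᵥ w = (fun i => ψ (b i)) → (fun i => ψ (c i)) ⬝ᵥ w = 0

lemma handles_of_unit {K S : Type} [CommRing K] [Algebra ℂ K] [Ring S] [Nonempty N]
    (φ : K →+* S) (X0 Y0 : Matrix N N K) (A : Matrix n n FP) (hu : IsUnit (φ (dl A X0 Y0)))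
    (hne : dl A X0 Y0 ≠ 0) : Handles (pt (X0.map φ) (Y0.map φ)) A := by
  have h := comp_pt φ.mapMatrix X0 Y0
  simp only [RingHom.mapMatrix_apply] at h
  rw [← h]
  set M := A.map (pt X0 Y0) with hM
  set Φ := φ.mapMatrix (m := N) with hΦ
  have e0 : A.map (Φ.comp (pt X0 Y0)) = Φ.mapMatrix M := rfl
  let d : Matrix N N S := Φ (cdet M • 1)
  have hd : IsUnit d := by
    have : d = Matrix.scalar N (φ (cdet M)) := by
      ext i j
      by_cases hij : i = j
      · subst hij; simp [d, hΦ]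
      · simp [d, hΦ, one_apply_ne hij, diagonal_apply_ne _ hij]
    rw [this]
    exact hu.map _
  have e1 : Φ.mapMatrix (cdet M • (1 : Matrix n n (Matrix N N K))) = Matrix.scalar n d := by
    ext i j : 1
    by_cases hij : i = j
    · subst hij; simp [d]
    · simp [one_apply_ne hij, diagonal_apply_ne _ hij]
  have l1 : Φ.mapMatrix (cadj M) * Φ.mapMatrix M = Matrix.scalar n d := by
    rw [← map_mul, cadj_mul, e1]
  have l2 : Φ.mapMatrix M * Φ.mapMatrix (cadj M) = Matrix.scalar n d := by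
    rw [← map_mul, mul_cadj, e1]
  obtain ⟨u, hu'⟩ := hd.map (Matrix.scalar n)
  constructor
  · rw [e0, isUnit_iff_exists_and_exists]
    exact ⟨⟨Φ.mapMatrix (cadj M) * (u⁻¹ : (Matrix n n (Matrix N N S))ˣ), by
        rw [← mul_assoc, l2, ← hu', Units.mul_inv]⟩,
      ⟨(u⁻¹ : (Matrix n n (Matrix N N S))ˣ) * Φ.mapMatrix (cadj M), by
        rw [mul_assoc, l1, ← hu', Units.inv_mul]⟩⟩
  · intro b c hb w hw
    have h0 := dichotomy A b c hb X0 Y0 hne
    rw [e0] at hw
    have l3 : ∀ i, d * w i = Φ ((cadj M *ᵥ fun i => pt X0 Y0 (b i)) i) := by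
      intro i
      have := congrArg (fun v => Φ.mapMatrix (cadj M) *ᵥ v) hw
      simp only [mulVec_mulVec, l1] at this
      have h2 := congrFun this i
      rw [RingHom.map_mulVec]
      refine Eq.trans ?_ h2
      simp [mulVec_diagonal]
    have l4 : ∀ m : Matrix N N K, d * Φ m = Φ m * d := by
      intro m
      simp only [d, ← map_mul, Matrix.smul_mul, Matrix.mul_smul, one_mul, mul_one]
    apply hd.mul_left_cancel
    rw [mul_zero, ← map_zero Φ, ← h0, numer, RingHom.map_dotProduct]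
    simp only [dotProduct, Finset.mul_sum, Function.comp_apply, RingHom.comp_apply]
    apply Finset.sum_congr rfl
    intro i _
    rw [← mul_assoc, l4, mul_assoc, l3]

lemma handles_reindex {n' Q : Type} [Fintype n'] [DecidableEq n'] [Ring Q] (ψ : FP →+* Q)
    (e : n ≃ n') (A : Matrix n n FP) (h : Handles ψ (Matrix.reindex e e A)) : Handles ψ A := by
  constructor
  · have := h.1.map (Matrix.reindexAlgEquiv ℤ Q e.symm)
    convert this using 1
    ext i j
    simp
  · intro b c hb w hw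
    have h1 := h.2 (b ∘ e.symm) (c ∘ e.symm) (by
      intro hf
      apply hb
      have := full_reindex (Equiv.sumCongr e.symm (Equiv.refl Unit)) hf
      convert this using 1
      ext i j
      rcases i with i | i <;> rcases j with j | j <;> simp [border]) (w ∘ e.symm) (by
      funext i
      have := congrFun hw (e.symm i)
      simp only [mulVec, dotProduct, Matrix.map_apply, reindex_apply, submatrix_apply,
        Function.comp_apply] at this ⊢
      rw [← this]
      exact Equiv.sum_comp e.symm (fun j => ψ (A (e.symm i) j) * w j))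
    rw [← h1]
    exact (Equiv.sum_comp e.symm (fun j => ψ (c j) * w j)).symm

/-- Full matrices of numeral size. -/
def FullCode : Type := {A : Σ k : ℕ, Matrix (Fin k) (Fin k) FP // Full A.2}

lemma exists_dom (m : Finset FullCode) :
    ∃ (n : Type) (_ : Fintype n) (_ : DecidableEq n) (D : Matrix n n FP), Full D ∧
      ∀ A ∈ m, ∀ (N : Type) [Fintype N] [DecidableEq N] (X0 Y0 : Matrix N N ℂ[X][X]),
        dl A.1.2 X0 Y0 ∣ dl D X0 Y0 := by
  classical
  induction m using Finset.induction_on with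
  | empty => exact ⟨Unit, inferInstance, inferInstance, 1, full_one, by simp⟩
  | insert A m _ ih =>
    obtain ⟨n, _, _, D, h1, h2⟩ := ih
    refine ⟨_, inferInstance, inferInstance, fromBlocks A.1.2 0 0 D, full_upper 0 A.2 h1, ?_⟩
    intro A' hA' N _ _ X0 Y0
    rw [dl_upper]
    rcases Finset.mem_insert.1 hA' with rfl | h
    · exact Dvd.intro _ rfl
    · exact (h2 A' h N X0 Y0).mul_left _

theorem exists_family : ∃ (ι : Type) (𝓕 : Filter ι) (_ : 𝓕.NeBot) (N : ι → Type)
    (_ : ∀ m, Fintype (N m)) (_ : ∀ m, DecidableEq (N m)) (x y : ∀ m, Matrix (N m) (N m) BH),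
    (∀ m, y m * x m = 1) ∧ (∀ m, x m * y m ≠ 1) ∧ (∀ m, mkQ.mapMatrix (1 - x m * y m) = 0) ∧
    ∀ (n : Type) [Fintype n] [DecidableEq n] (A : Matrix n n FP), Full A →
      ∀ᶠ m in 𝓕, Handles (pt (mkQ.mapMatrix (x m)) (mkQ.mapMatrix (star (x m)))) A := by
  classical
  have key : ∀ m : Finset FullCode, ∃ (N : Type) (_ : Fintype N) (_ : DecidableEq N)
      (x y : Matrix N N BH), y * x = 1 ∧ x * y ≠ 1 ∧ mkQ.mapMatrix (1 - x * y) = 0 ∧
      ∀ A ∈ m, Handles (pt (mkQ.mapMatrix x) (mkQ.mapMatrix (star x))) A.1.2 := by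
    intro m
    obtain ⟨n, _, _, D, h1, h2⟩ := exists_dom m
    obtain ⟨N, _, _, _, x, y, e1, e2, e3, X0, Y0, φ, e4, e5, e6, e7⟩ := exists_model D h1
    refine ⟨N, inferInstance, inferInstance, x, y, e1, e2, e3, fun A hA => ?_⟩
    obtain ⟨r, hr⟩ := h2 A hA N X0 Y0
    rw [RingHom.mapMatrix_apply, RingHom.mapMatrix_apply, ← e4, ← e5]
    rw [hr] at e6 e7
    rw [map_mul] at e6
    exact handles_of_unit φ X0 Y0 _ (((Commute.all _ _).map φ).isUnit_mul_iff.1 e6).1
      (left_ne_zero_of_mul e7)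
  choose N i1 i2 x y h1 h2 h3 h4 using key
  refine ⟨Finset FullCode, atTop, inferInstance, N, i1, i2, x, y, h1, h2, h3, ?_⟩
  intro n _ _ A hA
  let code : FullCode := ⟨⟨Fintype.card n, Matrix.reindex (Fintype.equivFin n)
    (Fintype.equivFin n) A⟩, full_reindex _ hA⟩
  filter_upwards [eventually_ge_atTop ({code} : Finset FullCode)] with m hm
  exact handles_reindex _ (Fintype.equivFin n) A (h4 m code (hm (Finset.mem_singleton_self _)))

end

end Pool.Agent.H413Z
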