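import Mathlib
import Pool.Agent.H413Z.Model

/-!
Elements represented as `c · A⁻¹ · b` with `A` full form a subring of the product in which every
element is eventually zero or eventually invertible.
-/

set_option autoImplicit false
set_option linter.unusedSectionVars false

open Matrix Filter

namespace Pool.Agent.H413Z

section
variable {n n' Q : Type} [Fintype n] [DecidableEq n] [Fintype n'] [DecidableEq n'] [Ring Q]

/-- `q = c · w` for a solution `w` of `A w = b`. -/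
def Rep (ψ : FP →+* Q) (A : Matrix n n FP) (b c : n → FP) (q : Q) : Prop :=
  ∃ w : n → Q, A.map ψ *ᵥ w = (fun i => ψ (b i)) ∧ (fun i => ψ (c i)) ⬝ᵥ w = q

lemma mulVec_mul_right (M : Matrix n' n Q) (w : n → Q) (μ : Q) :
    (M *ᵥ fun i => w i * μ) = fun i => (M *ᵥ w) i * μ := by
  funext i
  simp only [mulVec, dotProduct, Finset.sum_mul, mul_assoc]

lemma dot_mul_right (c w : n → Q) (μ : Q) : (c ⬝ᵥ fun i => w i * μ) = (c ⬝ᵥ w) * μ := by
  simp only [dotProduct, Finset.sum_mul, mul_assoc]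

lemma rep_const (ψ : FP →+* Q) (p : FP) :
    Rep ψ (1 : Matrix Unit Unit FP) (fun _ => 1) (fun _ => p) (ψ p) := by
  refine ⟨fun _ => 1, ?_, ?_⟩
  · rw [Matrix.map_one _ (map_zero _) (map_one _), one_mulVec]
    simp
  · simp [dotProduct]

lemma rep_add {ψ : FP →+* Q} {A : Matrix n n FP} {b c : n → FP} {q : Q} {A' : Matrix n' n' FP}
    {b' c' : n' → FP} {q' : Q} (h : Rep ψ A b c q) (h' : Rep ψ A' b' c' q') :
    Rep ψ (fromBlocks A 0 0 A') (Sum.elim b b') (Sum.elim c c') (q + q') := by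
  obtain ⟨w, h1, h2⟩ := h
  obtain ⟨w', h1', h2'⟩ := h'
  refine ⟨Sum.elim w w', ?_, ?_⟩
  · rw [fromBlocks_map, Matrix.map_zero _ (map_zero _), Matrix.map_zero _ (map_zero _),
      fromBlocks_mulVec]
    simp only [Sum.elim_comp_inl, Sum.elim_comp_inr, zero_mulVec, add_zero, zero_add, h1, h1']
    funext i
    rcases i with i | i <;> rfl
  · rw [← h2, ← h2']
    simp [dotProduct]

lemma rep_mul {ψ : FP →+* Q} {A : Matrix n n FP} {b c : n → FP} {q : Q} {A' : Matrix n' n' FP}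
    {b' c' : n' → FP} {q' : Q} (h : Rep ψ A b c q) (h' : Rep ψ A' b' c' q') :
    Rep ψ (fromBlocks A (Matrix.of fun i j => -(b i * c' j)) 0 A') (Sum.elim 0 b')
      (Sum.elim c 0) (q * q') := by
  obtain ⟨w, h1, h2⟩ := h
  obtain ⟨w', h1', h2'⟩ := h'
  refine ⟨Sum.elim (fun i => w i * q') w', ?_, ?_⟩
  · rw [fromBlocks_map, Matrix.map_zero _ (map_zero _), fromBlocks_mulVec]
    simp only [Sum.elim_comp_inl, Sum.elim_comp_inr, zero_mulVec, h1',
      mulVec_mul_right, h1]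
    funext i
    rcases i with i | i
    · rw [← h2']
      simp [mulVec, dotProduct, Finset.mul_sum, mul_assoc]
    · simp
  · rw [← h2, ← dot_mul_right]
    simp [dotProduct]

lemma rep_inv {ψ : FP →+* Q} {A : Matrix n n FP} {b c : n → FP} {q : Q} (hA : IsUnit (A.map ψ))
    (hB : IsUnit ((border A b c).map ψ)) (h : Rep ψ A b c q) :
    ∃ q', Rep ψ (border A b c) (Sum.elim 0 fun _ => -1) (Sum.elim 0 fun _ => 1) q' ∧
      q * q' = 1 ∧ q' * q = 1 := by
  obtain ⟨w, h1, h2⟩ := h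
  have inj : ∀ {k : Type} [Fintype k] [DecidableEq k] (M : Matrix k k Q), IsUnit M →
      ∀ v, M *ᵥ v = 0 → v = 0 := by
    intro k _ _ M hM v hv
    obtain ⟨u, rfl⟩ := hM
    rw [← one_mulVec v, ← Units.inv_mul u, ← mulVec_mulVec, hv, mulVec_zero]
  have hb : ∀ (v : n → Q) (μ : Q), (border A b c).map ψ *ᵥ Sum.elim v (fun _ => μ) =
      Sum.elim (A.map ψ *ᵥ v + fun i => ψ (b i) * μ) (fun _ => (fun i => ψ (c i)) ⬝ᵥ v) := by
    intro v μ
    rw [border, fromBlocks_map, Matrix.map_zero _ (map_zero _), fromBlocks_mulVec]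
    funext i
    rcases i with i | i
    · simp [mulVec, dotProduct]
    · simp [mulVec, dotProduct]
  obtain ⟨u, hu⟩ := id hB
  let z : n ⊕ Unit → Q := (u⁻¹ : (Matrix (n ⊕ Unit) (n ⊕ Unit) Q)ˣ).val *ᵥ
    (Sum.elim 0 fun _ => -1)
  have hz : (border A b c).map ψ *ᵥ z = Sum.elim (0 : n → Q) fun _ => -1 := by
    rw [← hu, mulVec_mulVec, Units.mul_inv, one_mulVec]
  have hz' : z = Sum.elim (z ∘ Sum.inl) (fun _ => z (Sum.inr ())) := by
    funext i
    rcases i with i | i <;> rfl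
  set l := z (Sum.inr ()) with hl
  have e1 := hz
  rw [hz', hb] at e1
  have e2 : (A.map ψ *ᵥ (z ∘ Sum.inl) + fun i => ψ (b i) * l) = 0 := by
    funext i; exact congrFun e1 (Sum.inl i)
  have e3 : (fun i => ψ (c i)) ⬝ᵥ (z ∘ Sum.inl) = -1 := congrFun e1 (Sum.inr ())
  have e4 : (z ∘ Sum.inl + fun i => w i * l) = 0 := by
    apply inj _ hA
    rw [mulVec_add, mulVec_mul_right, h1, e2]
  have e5 : q * l = 1 := by
    have := congrArg (fun v => (fun i => ψ (c i)) ⬝ᵥ v) e4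
    simp only [dotProduct_add, e3, dot_mul_right, h2, dotProduct_zero] at this
    exact (neg_add_eq_zero.1 this).symm
  refine ⟨l, ⟨z, ?_, ?_⟩, e5, ?_⟩
  · rw [hz]
    funext i
    rcases i with i | i <;> simp
  · simp [dotProduct, hl]
  · have e6 := inj _ hB (Sum.elim (fun i => w i * (1 - l * q)) (fun _ => l * q - 1)) (by
      rw [hb, mulVec_mul_right, h1, dot_mul_right, h2]
      funext i
      rcases i with i | i
      · simp only [Sum.elim_inl, Pi.add_apply, Pi.zero_apply]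
        rw [← mul_add]; simp
      · simp only [Sum.elim_inr, Pi.zero_apply]
        rw [mul_sub, ← mul_assoc, e5]; simp)
    exact sub_eq_zero.1 (congrFun e6 (Sum.inr ()))

end

section
variable {ι : Type} (𝓕 : Filter ι) {Q : ι → Type} [∀ m, Ring (Q m)] (ψ : ∀ m, FP →+* Q m)

/-- Families that are eventually represented by a full matrix. -/
def IsRat (q : ∀ m, Q m) : Prop :=
  ∃ (n : Type) (_ : Fintype n) (_ : DecidableEq n) (A : Matrix n n FP) (b c : n → FP),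
    Full A ∧ ∀ᶠ m in 𝓕, Rep (ψ m) A b c (q m)

variable {𝓕 ψ}

lemma IsRat.const (p : FP) : IsRat 𝓕 ψ (fun m => ψ m p) :=
  ⟨Unit, inferInstance, inferInstance, 1, _, _, full_one,
    Eventually.of_forall fun m => rep_const (ψ m) p⟩

lemma IsRat.congr {q r : ∀ m, Q m} (h : IsRat 𝓕 ψ q) (hqr : ∀ᶠ m in 𝓕, q m = r m) :
    IsRat 𝓕 ψ r := by
  obtain ⟨n, _, _, A, b, c, h1, h2⟩ := h
  refine ⟨n, inferInstance, inferInstance, A, b, c, h1, ?_⟩
  filter_upwards [h2, hqr] with m h3 h4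
  rwa [← h4]

lemma IsRat.add {q r : ∀ m, Q m} (h : IsRat 𝓕 ψ q) (h' : IsRat 𝓕 ψ r) :
    IsRat 𝓕 ψ (fun m => q m + r m) := by
  obtain ⟨n, _, _, A, b, c, h1, h2⟩ := h
  obtain ⟨n', _, _, A', b', c', h1', h2'⟩ := h'
  refine ⟨n ⊕ n', inferInstance, inferInstance, _, Sum.elim b b', Sum.elim c c',
    full_upper 0 h1 h1', ?_⟩
  filter_upwards [h2, h2'] with m h3 h4 using rep_add h3 h4

lemma IsRat.mul {q r : ∀ m, Q m} (h : IsRat 𝓕 ψ q) (h' : IsRat 𝓕 ψ r) :
    IsRat 𝓕 ψ (fun m => q m * r m) := by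
  obtain ⟨n, _, _, A, b, c, h1, h2⟩ := h
  obtain ⟨n', _, _, A', b', c', h1', h2'⟩ := h'
  refine ⟨n ⊕ n', inferInstance, inferInstance, _, Sum.elim 0 b', Sum.elim c 0,
    full_upper (Matrix.of fun i j => -(b i * c' j)) h1 h1', ?_⟩
  filter_upwards [h2, h2'] with m h3 h4 using rep_mul h3 h4

lemma IsRat.zero : IsRat 𝓕 ψ (fun _ => 0) :=
  (IsRat.const 0).congr (Eventually.of_forall fun _ => map_zero _)

lemma IsRat.one : IsRat 𝓕 ψ (fun _ => 1) :=
  (IsRat.const 1).congr (Eventually.of_forall fun _ => map_one _)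

lemma IsRat.neg {q : ∀ m, Q m} (h : IsRat 𝓕 ψ q) : IsRat 𝓕 ψ (fun m => -q m) :=
  ((IsRat.const (-1)).mul h).congr (Eventually.of_forall fun _ => by simp)

variable (hH : ∀ (n : Type) [Fintype n] [DecidableEq n] (A : Matrix n n FP), Full A →
      ∀ᶠ m in 𝓕, Handles (ψ m) A)
include hH

lemma IsRat.dich {q : ∀ m, Q m} (h : IsRat 𝓕 ψ q) : (∀ᶠ m in 𝓕, q m = 0) ∨
    ∃ r, IsRat 𝓕 ψ r ∧ ∀ᶠ m in 𝓕, q m * r m = 1 ∧ r m * q m = 1 := by
  obtain ⟨n, _, _, A, b, c, h1, h2⟩ := h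
  by_cases hb : Full (border A b c)
  · right
    have key : ∀ m, ∃ r : Q m, IsUnit (A.map (ψ m)) → IsUnit ((border A b c).map (ψ m)) →
        Rep (ψ m) A b c (q m) → Rep (ψ m) (border A b c) (Sum.elim 0 fun _ => -1)
          (Sum.elim 0 fun _ => 1) r ∧ q m * r = 1 ∧ r * q m = 1 := by
      intro m
      by_cases h : IsUnit (A.map (ψ m)) ∧ IsUnit ((border A b c).map (ψ m)) ∧
        Rep (ψ m) A b c (q m)
      · obtain ⟨r, hr⟩ := rep_inv h.1 h.2.1 h.2.2
        exact ⟨r, fun _ _ _ => hr⟩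
      · exact ⟨0, fun a1 a2 a3 => absurd ⟨a1, a2, a3⟩ h⟩
    choose r hr using key
    refine ⟨r, ⟨_, inferInstance, inferInstance, _, Sum.elim 0 fun _ => -1,
      Sum.elim 0 fun _ => 1, hb, ?_⟩, ?_⟩
    · filter_upwards [h2, hH _ _ h1, hH _ _ hb] with m a1 a2 a3 using (hr m a2.1 a3.1 a1).1
    · filter_upwards [h2, hH _ _ h1, hH _ _ hb] with m a1 a2 a3 using (hr m a2.1 a3.1 a1).2
  · left
    filter_upwards [h2, hH _ _ h1] with m a1 a2
    obtain ⟨w, e1, e2⟩ := a1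
    rw [← e2]
    exact a2.2 b c hb w e1

lemma IsRat.of_inv {q r : ∀ m, Q m} (h : IsRat 𝓕 ψ q) (hqr : ∀ᶠ m in 𝓕, q m * r m = 1) :
    IsRat 𝓕 ψ r := by
  rcases h.dich hH with h0 | ⟨r', h1, h2⟩
  · apply IsRat.zero.congr
    filter_upwards [h0, hqr] with m a1 a2
    rw [a1, zero_mul] at a2
    rw [← mul_one (r m), ← a2, mul_zero]
  · apply h1.congr
    filter_upwards [h2, hqr] with m a1 a2
    rw [← mul_one (r' m), ← a2, ← mul_assoc, a1.2, one_mul]

end

end Pool.Agent.H413Z
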