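import Mathlib
import Pool.Agent.H413Z.Rep

/-!
Assembling the models into one regular ring with proper involution that is not directly finite.
-/

set_option autoImplicit false
set_option linter.unusedSectionVars false

open Matrix Filter

namespace Pool.Agent.H413Z

/-- The involution on a subring that is closed under the involution. -/
@[reducible] def subStar {S : Type} [Ring S] [StarRing S] (T : Subring S)
    (hT : ∀ a ∈ T, star a ∈ T) : StarRing T where
  star a := ⟨star a.1, hT _ a.2⟩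
  star_involutive a := Subtype.ext (star_star a.1)
  star_mul a b := Subtype.ext (star_mul a.1 b.1)
  star_add a b := Subtype.ext (star_add a.1 b.1)

section
variable {ι : Type} (𝓕 : Filter ι) {E Q : ι → Type} [∀ m, Ring (E m)] [∀ m, StarRing (E m)]
  [∀ m, Ring (Q m)] (π : ∀ m, E m →+* Q m) (ψ : ∀ m, FP →+* Q m)

/-- Families whose classes, and the classes of whose adjoints, are rational. -/
def RT : Subring (∀ m, E m) where
  carrier := {a | IsRat 𝓕 ψ (fun m => π m (a m)) ∧ IsRat 𝓕 ψ (fun m => π m (star (a m)))}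
  mul_mem' {a b} ha hb :=
    ⟨(ha.1.mul hb.1).congr (Eventually.of_forall fun m => by simp),
      (hb.2.mul ha.2).congr (Eventually.of_forall fun m => by simp)⟩
  one_mem' := ⟨IsRat.one.congr (Eventually.of_forall fun m => by simp),
      IsRat.one.congr (Eventually.of_forall fun m => by simp)⟩
  add_mem' {a b} ha hb :=
    ⟨(ha.1.add hb.1).congr (Eventually.of_forall fun m => by simp),
      (ha.2.add hb.2).congr (Eventually.of_forall fun m => by simp)⟩
  zero_mem' := ⟨IsRat.zero.congr (Eventually.of_forall fun m => by simp),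
      IsRat.zero.congr (Eventually.of_forall fun m => by simp)⟩
  neg_mem' {a} ha :=
    ⟨ha.1.neg.congr (Eventually.of_forall fun m => by simp),
      ha.2.neg.congr (Eventually.of_forall fun m => by simp)⟩

lemma mem_RT (a : ∀ m, E m) : a ∈ RT 𝓕 π ψ ↔
    IsRat 𝓕 ψ (fun m => π m (a m)) ∧ IsRat 𝓕 ψ (fun m => π m (star (a m))) := Iff.rfl

lemma RT_star (a : ∀ m, E m) (ha : a ∈ RT 𝓕 π ψ) : star a ∈ RT 𝓕 π ψ :=
  ⟨ha.2, ha.1.congr (Eventually.of_forall fun m => by simp)⟩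

variable {𝓕 π ψ}
variable (hs : ∀ m (a : E m), π m a = 0 → π m (star a) = 0)
include hs

lemma RT_congr {a g : ∀ m, E m} (ha : a ∈ RT 𝓕 π ψ) (h : ∀ᶠ m in 𝓕, π m (a m) = π m (g m)) :
    g ∈ RT 𝓕 π ψ := by
  refine ⟨ha.1.congr h, ha.2.congr ?_⟩
  filter_upwards [h] with m hm
  have := hs m (a m - g m) (by rw [map_sub, hm, sub_self])
  rwa [star_sub, map_sub, sub_eq_zero] at this

lemma RT_regular (hπ : ∀ m, Function.Surjective (π m))
    (hr : ∀ m (a : E m), π m a = 0 → ∃ g, a * g * a = a)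
    (hH : ∀ (n : Type) [Fintype n] [DecidableEq n] (A : Matrix n n FP), Full A →
      ∀ᶠ m in 𝓕, Handles (ψ m) A) (a : ∀ m, E m) (ha : a ∈ RT 𝓕 π ψ) :
    ∃ g ∈ RT 𝓕 π ψ, ∀ᶠ m in 𝓕, a m * g m * a m = a m := by
  have hr' : ∀ m (a : E m), ∃ g, π m a = 0 → a * g * a = a := by
    intro m a
    by_cases h : π m a = 0
    · obtain ⟨g, hg⟩ := hr m a h
      exact ⟨g, fun _ => hg⟩
    · exact ⟨0, fun h' => absurd h' h⟩
  choose qi hqi using hr'
  rcases ha.1.dich hH with h0 | ⟨r, h1, h2⟩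
  · refine ⟨fun m => qi m (a m) * a m * qi m (a m), RT_congr hs (zero_mem _) ?_, ?_⟩
    · filter_upwards [h0] with m hm
      simp [hm]
    · filter_upwards [h0] with m hm
      have := hqi m (a m) hm
      rw [← mul_assoc, ← mul_assoc, this, this]
  · choose g0 hg0 using fun m => hπ m (r m)
    have hg0R : g0 ∈ RT 𝓕 π ψ := by
      refine ⟨h1.congr (Eventually.of_forall fun m => (hg0 m).symm), ha.2.of_inv hH ?_⟩
      filter_upwards [h2] with m hm
      have := hs m (g0 m * a m - 1) (by rw [map_sub, map_mul, hg0, hm.2, map_one, sub_self])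
      rwa [star_sub, star_mul, star_one, map_sub, map_mul, map_one, sub_eq_zero] at this
    refine ⟨fun m => g0 m + (1 - g0 m * a m) * qi m (a m - a m * g0 m * a m) * (1 - a m * g0 m),
      RT_congr hs hg0R ?_, ?_⟩
    · filter_upwards [h2] with m hm
      simp [hg0, hm.1]
    · filter_upwards [h2] with m hm
      have := hqi m (a m - a m * g0 m * a m) (by simp [hg0, hm.1])
      calc _ = a m * g0 m * a m + (a m - a m * g0 m * a m) * qi m (a m - a m * g0 m * a m) *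
            (a m - a m * g0 m * a m) := by noncomm_ring
        _ = a m := by rw [this]; abel

theorem core [𝓕.NeBot] (hπ : ∀ m, Function.Surjective (π m))
    (hr : ∀ m (a : E m), π m a = 0 → ∃ g, a * g * a = a)
    (hc : ∀ m (e a : E m), π m e = 0 → e * e = e → e * a * e = a →
      ∃ u v : E m, e * u * e = u ∧ e * v * e = v ∧ u * v = e ∧ v * u = e ∧ a = a * u * a)
    (hp : ∀ m (a : E m), star a * a = 0 → a = 0)
    (hH : ∀ (n : Type) [Fintype n] [DecidableEq n] (A : Matrix n n FP), Full A →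
      ∀ᶠ m in 𝓕, Handles (ψ m) A)
    (x y : ∀ m, E m) (hx1 : ∀ m, ψ m (FreeRing.of true) = π m (x m))
    (hx2 : ∀ m, ψ m (FreeRing.of false) = π m (star (x m)))
    (hyx : ∀ m, y m * x m = 1) (hxy : ∀ m, x m * y m ≠ 1) (hk : ∀ m, π m (1 - x m * y m) = 0) :
    ∃ (R : Type) (_ : Ring R) (_ : StarRing R) (f : RT 𝓕 π ψ →+* R), Function.Surjective f ∧
      (∀ a : RT 𝓕 π ψ, f ⟨star a.1, RT_star 𝓕 π ψ _ a.2⟩ = star (f a)) ∧
      (∀ a : RT 𝓕 π ψ, (∀ᶠ m in 𝓕, a.1 m = 0) → f a = 0) ∧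
      (∀ a : R, ∃ g : R, a * g * a = a) ∧ (∀ a : R, star a * a = 0 → a = 0) ∧
      (∃ e0 : R, e0 ≠ 0 ∧ (∀ K : TwoSidedIdeal R, (∃ z ∈ K, z ≠ 0) → e0 ∈ K) ∧
        ∀ e ∈ TwoSidedIdeal.span {e0}, e * e = e → ∀ a : R, e * a * e = a →
          ∃ u v : R, e * u * e = u ∧ e * v * e = v ∧ u * v = e ∧ v * u = e ∧ a = a * u * a) ∧
      (∃ a b : R, b * a = 1 ∧ a * b ≠ 1) ∧
      ¬ ∀ a : R, ∃ u : Rˣ, a * (u : R) * a = a := by
  let : StarRing (RT 𝓕 π ψ) := subStar _ (RT_star 𝓕 π ψ)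
  let J0 : TwoSidedIdeal (RT 𝓕 π ψ) := TwoSidedIdeal.mk' {a | ∀ᶠ m in 𝓕, a.1 m = 0}
    (Eventually.of_forall fun _ => rfl)
    (fun {a b} ha hb => by
      filter_upwards [ha, hb] with m h1 h2
      change a.1 m + b.1 m = 0
      rw [h1, h2, add_zero])
    (fun {a} ha => by
      filter_upwards [ha] with m h1
      change -a.1 m = 0
      rw [h1, neg_zero])
    (fun {a b} hb => by
      filter_upwards [hb] with m h1
      change a.1 m * b.1 m = 0
      rw [h1, mul_zero])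
    (fun {a b} ha => by
      filter_upwards [ha] with m h1
      change a.1 m * b.1 m = 0
      rw [h1, zero_mul])
  have hJ0 : ∀ a : RT 𝓕 π ψ, a ∈ J0 ↔ ∀ᶠ m in 𝓕, a.1 m = 0 := fun a =>
    TwoSidedIdeal.mem_mk' _ _ _ _ _ _ _
  have hJs : ∀ a : RT 𝓕 π ψ, a ∈ J0 → star a ∈ J0 := by
    intro a ha
    rw [hJ0] at *
    filter_upwards [ha] with m h1
    change star (a.1 m) = 0
    rw [h1, star_zero]
  let k := sqMk J0 hJs
  have hk_eq : ∀ a b : RT 𝓕 π ψ, k a = k b ↔ ∀ᶠ m in 𝓕, a.1 m = b.1 m := by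
    intro a b
    rw [sqMk_eq, hJ0]
    apply eventually_congr
    exact Eventually.of_forall fun m => sub_eq_zero
  have reg1 : ∀ t : SQuot J0 hJs, ∃ g, t * g * t = t := by
    intro t
    obtain ⟨a, rfl⟩ := sqMk_surj _ _ t
    obtain ⟨g, hg, h⟩ := RT_regular hs hπ hr hH a.1 a.2
    refine ⟨k ⟨g, hg⟩, ?_⟩
    rw [← map_mul, ← map_mul, hk_eq]
    exact h
  have prop1 : ∀ t : SQuot J0 hJs, star t * t = 0 → t = 0 := by
    intro t ht
    obtain ⟨a, rfl⟩ := sqMk_surj _ _ t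
    rw [sqMk_star, ← map_mul, sqMk_eq_zero, hJ0] at ht
    rw [sqMk_eq_zero, hJ0]
    filter_upwards [ht] with m h1 using hp m _ h1
  have hxR : x ∈ RT 𝓕 π ψ :=
    ⟨(IsRat.const _).congr (Eventually.of_forall hx1),
      (IsRat.const _).congr (Eventually.of_forall hx2)⟩
  have hyR : y ∈ RT 𝓕 π ψ := by
    refine ⟨hxR.1.of_inv hH (Eventually.of_forall fun m => ?_),
      hxR.2.of_inv hH (Eventually.of_forall fun m => ?_)⟩
    · have := hk m
      rw [map_sub, map_one, map_mul, sub_eq_zero] at this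
      exact this.symm
    · rw [← map_mul, ← star_mul, hyx, star_one, map_one]
  have e1 : k ⟨y, hyR⟩ * k ⟨x, hxR⟩ = 1 := by
    rw [← map_mul, ← map_one k, hk_eq]
    exact Eventually.of_forall hyx
  have e2 : k ⟨x, hxR⟩ * k ⟨y, hyR⟩ ≠ 1 := by
    rw [← map_mul, ← map_one k, Ne, hk_eq]
    intro h
    obtain ⟨m, hm⟩ := h.exists
    exact hxy m hm
  obtain ⟨R, _, _, f, f1, f2, f3, f4, f5, f6, f7⟩ := exists_si reg1 prop1 _ _ e1 e2
  let I : TwoSidedIdeal (SQuot J0 hJs) := TwoSidedIdeal.mk'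
    {t | ∃ a : RT 𝓕 π ψ, k a = t ∧ ∀ᶠ m in 𝓕, π m (a.1 m) = 0}
    ⟨0, map_zero _, Eventually.of_forall fun _ => map_zero _⟩
    (by
      rintro _ _ ⟨a, rfl, ha⟩ ⟨b, rfl, hb⟩
      refine ⟨a + b, map_add _ _ _, ?_⟩
      filter_upwards [ha, hb] with m h1 h2
      change π m (a.1 m + b.1 m) = 0
      rw [map_add, h1, h2, add_zero])
    (by
      rintro _ ⟨a, rfl, ha⟩
      refine ⟨-a, map_neg _ _, ?_⟩
      filter_upwards [ha] with m h1
      change π m (-a.1 m) = 0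
      rw [map_neg, h1, neg_zero])
    (by
      rintro t _ ⟨b, rfl, hb⟩
      obtain ⟨a, rfl⟩ := sqMk_surj _ _ t
      refine ⟨a * b, map_mul _ _ _, ?_⟩
      filter_upwards [hb] with m h1
      change π m (a.1 m * b.1 m) = 0
      rw [map_mul, h1, mul_zero])
    (by
      rintro _ t ⟨a, rfl, ha⟩
      obtain ⟨b, rfl⟩ := sqMk_surj _ _ t
      refine ⟨a * b, map_mul _ _ _, ?_⟩
      filter_upwards [ha] with m h1
      change π m (a.1 m * b.1 m) = 0
      rw [map_mul, h1, zero_mul])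
  have hI : ∀ t, t ∈ I ↔ ∃ a : RT 𝓕 π ψ, k a = t ∧ ∀ᶠ m in 𝓕, π m (a.1 m) = 0 := fun t =>
    TwoSidedIdeal.mem_mk' _ _ _ _ _ _ _
  have hIc : ∀ p ∈ I, p * p = p → ∀ a : SQuot J0 hJs, p * a * p = a →
      ∃ u v : SQuot J0 hJs, p * u * p = u ∧ p * v * p = v ∧ u * v = p ∧ v * u = p ∧
        a = a * u * a := by
    intro p hpI hpp t ht
    obtain ⟨e, rfl, he⟩ := (hI p).1 hpI
    obtain ⟨a, rfl⟩ := sqMk_surj _ _ t
    rw [← map_mul, hk_eq] at hpp
    change k e * k a * k e = k a at ht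
    rw [← map_mul, ← map_mul, hk_eq] at ht
    have key : ∀ m, ∃ u v : E m, π m (e.1 m) = 0 → e.1 m * e.1 m = e.1 m →
        e.1 m * a.1 m * e.1 m = a.1 m → e.1 m * u * e.1 m = u ∧ e.1 m * v * e.1 m = v ∧
          u * v = e.1 m ∧ v * u = e.1 m ∧ a.1 m = a.1 m * u * a.1 m := by
      intro m
      by_cases h : π m (e.1 m) = 0 ∧ e.1 m * e.1 m = e.1 m ∧ e.1 m * a.1 m * e.1 m = a.1 m
      · obtain ⟨u, v, huv⟩ := hc m _ _ h.1 h.2.1 h.2.2
        exact ⟨u, v, fun _ _ _ => huv⟩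
      · exact ⟨0, 0, fun a1 a2 a3 => absurd ⟨a1, a2, a3⟩ h⟩
    choose u v huv using key
    have hall : ∀ᶠ m in 𝓕, π m (e.1 m) = 0 ∧ e.1 m * u m * e.1 m = u m ∧
        e.1 m * v m * e.1 m = v m ∧ u m * v m = e.1 m ∧ v m * u m = e.1 m ∧
        a.1 m = a.1 m * u m * a.1 m := by
      filter_upwards [he, hpp, ht] with m a1 a2 a3 using ⟨a1, huv m a1 a2 a3⟩
    have huR : u ∈ RT 𝓕 π ψ := by
      apply RT_congr hs (zero_mem _)
      filter_upwards [hall] with m hm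
      rw [← hm.2.1]; simp [hm.1]
    have hvR : v ∈ RT 𝓕 π ψ := by
      apply RT_congr hs (zero_mem _)
      filter_upwards [hall] with m hm
      rw [← hm.2.2.1]; simp [hm.1]
    refine ⟨k ⟨u, huR⟩, k ⟨v, hvR⟩, ?_, ?_, ?_, ?_, ?_⟩
    · rw [← map_mul, ← map_mul, hk_eq]
      filter_upwards [hall] with m hm using hm.2.1
    · rw [← map_mul, ← map_mul, hk_eq]
      filter_upwards [hall] with m hm using hm.2.2.1
    · rw [← map_mul, hk_eq]
      filter_upwards [hall] with m hm using hm.2.2.2.1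
    · rw [← map_mul, hk_eq]
      filter_upwards [hall] with m hm using hm.2.2.2.2.1
    · change k a = k a * _ * k a
      rw [← map_mul, ← map_mul, hk_eq]
      filter_upwards [hall] with m hm using hm.2.2.2.2.2
  have heI : 1 - k ⟨x, hxR⟩ * k ⟨y, hyR⟩ ∈ I := by
    rw [hI]
    exact ⟨1 - ⟨x, hxR⟩ * ⟨y, hyR⟩, by rw [map_sub, map_one, map_mul],
      Eventually.of_forall hk⟩
  refine ⟨R, inferInstance, inferInstance, f.comp k, f1.comp (sqMk_surj _ _), ?_, ?_, f3, f4,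
    ⟨_, f5, f6, ?_⟩, ⟨f (k ⟨x, hxR⟩), f (k ⟨y, hyR⟩), ?_, ?_⟩, f7⟩
  · intro a
    rw [RingHom.comp_apply, RingHom.comp_apply, ← f2, sqMk_star]
    rfl
  · intro a ha
    rw [RingHom.comp_apply, (sqMk_eq_zero J0 hJs a).2 ((hJ0 a).2 ha), map_zero]
  · intro e he
    have : ∃ c ∈ I, f c = e := by
      induction he using TwoSidedIdeal.span_induction with
      | mem z hz => exact ⟨_, heI, (Set.mem_singleton_iff.1 hz).symm⟩
      | zero => exact ⟨0, I.zero_mem, map_zero _⟩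
      | add z w _ _ h1 h2 =>
        obtain ⟨c, hc1, rfl⟩ := h1
        obtain ⟨d, hd1, rfl⟩ := h2
        exact ⟨c + d, I.add_mem hc1 hd1, map_add _ _ _⟩
      | neg z _ h1 =>
        obtain ⟨c, hc1, rfl⟩ := h1
        exact ⟨-c, I.neg_mem hc1, map_neg _ _⟩
      | left_absorb r z _ h1 =>
        obtain ⟨c, hc1, rfl⟩ := h1
        obtain ⟨d, rfl⟩ := f1 r
        exact ⟨d * c, I.mul_mem_left _ _ hc1, map_mul _ _ _⟩
      | right_absorb r z _ h1 =>
        obtain ⟨c, hc1, rfl⟩ := h1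
        obtain ⟨d, rfl⟩ := f1 r
        exact ⟨c * d, I.mul_mem_right _ _ hc1, map_mul _ _ _⟩
    intro hee a ha
    obtain ⟨c, hcI, rfl⟩ := this
    exact corner_quot f f1 reg1 I hIc c hcI hee a ha
  · rw [← map_mul, e1, map_one]
  · intro h
    apply f5
    rw [map_sub, map_one, map_mul, h, sub_self]

end

section
variable {N : Type} [Fintype N] [DecidableEq N]

lemma mkQ_mat_eq_zero (a : Matrix N N BH) : mkQ.mapMatrix a = 0 ↔ ∀ i j, a i j ∈ FI := by
  constructor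
  · intro h i j
    exact (sqMk_eq_zero FI FI_star _).1 (congrFun (congrFun h i) j)
  · intro h
    ext i j : 1
    exact (sqMk_eq_zero FI FI_star _).2 (h i j)

lemma mkQ_mat_surj : Function.Surjective (mkQ.mapMatrix : Matrix N N BH → Matrix N N QH) := by
  intro q
  choose a ha using fun i j => sqMk_surj FI FI_star (q i j)
  exact ⟨Matrix.of a, by ext i j : 1; exact ha i j⟩

lemma mkQ_mat_star (a : Matrix N N BH) (h : mkQ.mapMatrix a = 0) :
    mkQ.mapMatrix (star a) = 0 := by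
  rw [mkQ_mat_eq_zero] at *
  exact fun i j => FI_star _ (h j i)

end

/-- The counterexample ring with all its properties. -/
theorem exists_ring : ∃ (ι : Type) (𝓕 : Filter ι) (_ : 𝓕.NeBot) (N : ι → Type)
    (_ : ∀ m, Fintype (N m)) (_ : ∀ m, DecidableEq (N m))
    (T : Subring (∀ m, Matrix (N m) (N m) BH)) (hT : ∀ a ∈ T, star a ∈ T)
    (R : Type) (_ : Ring R) (_ : StarRing R) (f : T →+* R), Function.Surjective f ∧
      (∀ a ∈ T, ∀ g : ∀ m, Matrix (N m) (N m) BH, (∀ᶠ m in 𝓕, a m = g m) → g ∈ T) ∧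
      (∀ a ∈ T, ∃ g ∈ T, ∀ᶠ m in 𝓕, a m * g m * a m = a m) ∧
      (∀ a : T, f ⟨star a.1, hT _ a.2⟩ = star (f a)) ∧
      (∀ a : T, (∀ᶠ m in 𝓕, a.1 m = 0) → f a = 0) ∧
      (∀ a : R, ∃ g : R, a * g * a = a) ∧ (∀ a : R, star a * a = 0 → a = 0) ∧
      (∃ e0 : R, e0 ≠ 0 ∧ (∀ K : TwoSidedIdeal R, (∃ z ∈ K, z ≠ 0) → e0 ∈ K) ∧
        ∀ e ∈ TwoSidedIdeal.span {e0}, e * e = e → ∀ a : R, e * a * e = a →
          ∃ u v : R, e * u * e = u ∧ e * v * e = v ∧ u * v = e ∧ v * u = e ∧ a = a * u * a) ∧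
      (∃ a b : R, b * a = 1 ∧ a * b ≠ 1) ∧
      ¬ ∀ a : R, ∃ u : Rˣ, a * (u : R) * a = a := by
  obtain ⟨ι, 𝓕, _, N, _, _, x, y, h1, h2, h3, h4⟩ := exists_family
  have hs : ∀ m (a : Matrix (N m) (N m) BH), mkQ.mapMatrix a = 0 →
    mkQ.mapMatrix (star a) = 0 := fun m a => mkQ_mat_star a
  have hr : ∀ m (a : Matrix (N m) (N m) BH), mkQ.mapMatrix a = 0 → ∃ g, a * g * a = a :=
    fun m a h => mat_regular a fun i j => ((mem_FI _).1 ((mkQ_mat_eq_zero a).1 h i j)).1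
  obtain ⟨R, _, _, f, f1, f2, f3, f4⟩ := core (𝓕 := 𝓕) (E := fun m => Matrix (N m) (N m) BH)
    (π := fun m => mkQ.mapMatrix)
    (ψ := fun m => pt (mkQ.mapMatrix (x m)) (mkQ.mapMatrix (star (x m)))) hs
    (fun m => mkQ_mat_surj) hr
    (fun m e a h => mat_corner e a fun i j => ((mem_FI _).1 ((mkQ_mat_eq_zero e).1 h i j)).1)
    (fun m a => mat_proper a) h4 x y (fun m => pt_true _ _) (fun m => pt_false _ _) h1 h2 h3
  refine ⟨ι, 𝓕, inferInstance, N, inferInstance, inferInstance, _, RT_star 𝓕 _ _, R,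
    inferInstance, inferInstance, f, f1, ?_, ?_, f2, f3, f4⟩
  · intro a ha g hg
    apply RT_congr hs ha
    filter_upwards [hg] with m hm
    rw [hm]
  · exact RT_regular hs (fun m => mkQ_mat_surj) hr h4

end Pool.Agent.H413Z
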