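import Mathlib
import Pool.Agent.H413Z.Core

/-!
Approximation of matrices of operators by their finite dimensional compressions.
-/

set_option autoImplicit false
set_option linter.unusedSectionVars false

open Matrix Filter

namespace Pool.Agent.H413Z

/-- The span of a finite set of vectors. -/
noncomputable abbrev US (s : Finset HS) : Submodule ℂ HS := Submodule.span ℂ (s : Set HS)

instance (s : Finset HS) : CompleteSpace (US s) := FiniteDimensional.complete ℂ _

/-- Operators on the span of a finite set. -/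
abbrev BU (s : Finset HS) : Type := US s →L[ℂ] US s

/-- Extension by zero on the orthogonal complement. -/
noncomputable def extU (s : Finset HS) (t : BU s) : BH :=
  (US s).subtypeL.comp (t.comp (US s).orthogonalProjectionOnto)

/-- Compression to a finite dimensional subspace. -/
noncomputable def cmpU (s : Finset HS) (a : BH) : BU s :=
  (US s).orthogonalProjectionOnto.comp (a.comp (US s).subtypeL)

lemma extU_apply (s : Finset HS) (t : BU s) (v : HS) :
    extU s t v = t ((US s).orthogonalProjectionOnto v) := rfl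

lemma extU_mul (s : Finset HS) (t t' : BU s) : extU s (t * t') = extU s t * extU s t' := by
  ext1 v
  rw [mul_apply_eq_comp, extU_apply, extU_apply, extU_apply,
    Submodule.orthogonalProjectionOnto_mem_subspace_eq_self]
  rfl

lemma extU_star (s : Finset HS) (t : BU s) : extU s (star t) = star (extU s t) := by
  rw [extU, extU, ContinuousLinearMap.star_eq_adjoint, ContinuousLinearMap.star_eq_adjoint,
    ContinuousLinearMap.adjoint_comp, ContinuousLinearMap.adjoint_comp,
    Submodule.adjoint_subtypeL, Submodule.adjoint_orthogonalProjectionOnto]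
  rfl

/-- Extension by zero as an additive map. -/
noncomputable def extH (s : Finset HS) : BU s →ₙ+* BH where
  toFun := extU s
  map_mul' := extU_mul s
  map_zero' := by ext1 v; simp [extU_apply]
  map_add' t t' := by ext1 v; simp [extU_apply]

lemma extU_cmpU (s : Finset HS) (a : BH) : extU s (cmpU s a) = extU s 1 * a * extU s 1 := rfl

lemma extU_one (s : Finset HS) (v : HS) (hv : v ∈ s) : extU s 1 v = v := by
  have := (US s).orthogonalProjectionOnto_mem_subspace_eq_self
    ⟨v, Submodule.subset_span (Finset.mem_coe.2 hv)⟩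
  exact congrArg Subtype.val this

section
variable {N : Type} [Fintype N] [DecidableEq N]

/-- Matrices of operators on the span of a finite set. -/
def SM (N : Type) (s : Finset HS) : Type := Matrix N N (BU s)

noncomputable instance (s : Finset HS) : Ring (SM N s) :=
  inferInstanceAs (Ring (Matrix N N (BU s)))

noncomputable instance (s : Finset HS) : StarRing (SM N s) :=
  inferInstanceAs (StarRing (Matrix N N (BU s)))

lemma mat_artinian (V : Type) [NormedAddCommGroup V] [NormedSpace ℂ V] [FiniteDimensional ℂ V] :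
    IsArtinianRing (Matrix N N (V →L[ℂ] V)) := by
  have : IsArtinianRing (V →L[ℂ] V) := IsArtinianRing.of_finite ℂ _
  infer_instance

lemma SM_artinian (s : Finset HS) : IsArtinianRing (SM N s) := mat_artinian (US s)

lemma SM_regular (s : Finset HS) (t : SM N s) : ∃ g, t * g * t = t :=
  mat_regular (V := US s) t fun _ _ => FR.of_finiteDimensional _

lemma SM_proper (s : Finset HS) (t : SM N s) (h : star t * t = 0) : t = 0 :=
  mat_proper (H := US s) t h

/-- Entrywise compression. -/
noncomputable def cmpM (s : Finset HS) (a : Matrix N N BH) : SM N s := a.map (cmpU s)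

/-- Entrywise extension by zero. -/
noncomputable def extM (s : Finset HS) (t : SM N s) : Matrix N N BH := Matrix.map t (extH s)

lemma extM_mul (s : Finset HS) (t t' : SM N s) :
    extM s (t * t') = extM s t * extM s t' := Matrix.map_mul

lemma extM_add (s : Finset HS) (t t' : SM N s) :
    extM s (t + t') = extM s t + extM s t' := Matrix.map_add _ (map_add (extH s)) _ _

lemma extM_neg (s : Finset HS) (t : SM N s) : extM s (-t) = -extM s t :=
  Matrix.map_neg _ (map_neg (extH s)) _

lemma extM_zero (s : Finset HS) : extM s (0 : SM N s) = 0 :=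
  Matrix.map_zero _ (map_zero (extH s))

lemma extM_star (s : Finset HS) (t : SM N s) : extM s (star t) = star (extM s t) := by
  ext i j : 1
  exact extU_star s (t j i)

lemma extM_one (s : Finset HS) :
    extM s (1 : SM N s) = diagonal fun _ => extU s 1 := by
  change Matrix.map (diagonal fun _ => 1) (extH s) = _
  rw [diagonal_map (map_zero (extH s))]
  rfl

lemma extM_cmp (s : Finset HS) (a : Matrix N N BH) :
    extM s (cmpM s a) = extM s 1 * a * extM s 1 := by
  ext i j : 1
  rw [extM_one, mul_diagonal, diagonal_mul]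
  exact extU_cmpU s (a i j)

lemma matOp_add (a b : Matrix N N BH) (v : N → HS) :
    matOp (a + b) v = matOp a v + matOp b v := by
  funext i
  simp [matOp_apply, Finset.sum_add_distrib]

lemma matOp_neg (a : Matrix N N BH) (v : N → HS) : matOp (-a) v = -matOp a v := by
  funext i
  simp [matOp_apply]

lemma matOp_zero (v : N → HS) : matOp (0 : Matrix N N BH) v = 0 := by
  funext i
  simp [matOp_apply]

lemma matOp_mul' (a b : Matrix N N BH) (v : N → HS) :
    matOp (a * b) v = matOp a (matOp b v) := by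
  rw [matOp_mul]; rfl

lemma matOp_diag (d : BH) (v : N → HS) :
    matOp (diagonal fun _ : N => d) v = fun i => d (v i) := by
  funext i
  rw [matOp_apply, Finset.sum_eq_single i]
  · simp
  · intro k _ hk; simp [diagonal_apply_ne _ hk.symm]
  · intro h; exact absurd (Finset.mem_univ i) h

lemma ev_one (v : N → HS) : ∀ᶠ s in atTop, matOp (extM s (1 : SM N s)) v = v := by
  classical
  filter_upwards [eventually_ge_atTop (Finset.univ.image v)] with s hs
  rw [extM_one, matOp_diag]
  funext i
  exact extU_one s _ (hs (Finset.mem_image_of_mem v (Finset.mem_univ i)))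

/-- One sided approximation: on each vector the family eventually acts as the limit. -/
def Ap1 (t : ∀ s : Finset HS, SM N s) (a : Matrix N N BH) : Prop :=
  ∀ v : N → HS, ∀ᶠ s in atTop, matOp (extM s (t s)) v = matOp a v

/-- Approximation together with the adjoints. -/
def Ap (t : ∀ s : Finset HS, SM N s) (a : Matrix N N BH) : Prop :=
  Ap1 t a ∧ Ap1 (fun s => star (t s)) (star a)

lemma Ap1.add {t t' : ∀ s : Finset HS, SM N s} {a a' : Matrix N N BH}
    (h : Ap1 t a) (h' : Ap1 t' a') : Ap1 (fun s => t s + t' s) (a + a') := by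
  intro v
  filter_upwards [h v, h' v] with s h1 h2
  rw [extM_add, matOp_add, matOp_add, h1, h2]

lemma Ap1.neg {t : ∀ s : Finset HS, SM N s} {a : Matrix N N BH}
    (h : Ap1 t a) : Ap1 (fun s => -t s) (-a) := by
  intro v
  filter_upwards [h v] with s h1
  rw [extM_neg, matOp_neg, matOp_neg, h1]

lemma Ap1.mul {t t' : ∀ s : Finset HS, SM N s} {a a' : Matrix N N BH}
    (h : Ap1 t a) (h' : Ap1 t' a') : Ap1 (fun s => t s * t' s) (a * a') := by
  intro v
  filter_upwards [h (matOp a' v), h' v] with s h1 h2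
  rw [extM_mul, matOp_mul', matOp_mul', h2, h1]

lemma Ap1.mul_zero {t' : ∀ s : Finset HS, SM N s}
    (t : ∀ s : Finset HS, SM N s) (h' : Ap1 t' 0) : Ap1 (fun s => t s * t' s) 0 := by
  intro v
  filter_upwards [h' v] with s h2
  rw [extM_mul, matOp_mul', h2, matOp_zero, map_zero]

lemma Ap1.zero : Ap1 (fun s => (0 : SM N s)) 0 := fun v =>
  Eventually.of_forall fun s => by rw [extM_zero]

lemma Ap1.one : Ap1 (fun s => (1 : SM N s)) 1 := by
  intro v
  filter_upwards [ev_one v] with s hs
  rw [hs, ← diagonal_one, matOp_diag]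
  rfl

lemma Ap1.unique {t : ∀ s : Finset HS, SM N s} {a a' : Matrix N N BH}
    (h : Ap1 t a) (h' : Ap1 t a') : a = a' := by
  apply matOp_injective
  ext1 v
  obtain ⟨s, h1, h2⟩ := ((h v).and (h' v)).exists
  rw [← h1, h2]

lemma Ap1.cmp (a : Matrix N N BH) : Ap1 (fun s => cmpM s a) a := by
  intro v
  filter_upwards [ev_one v, ev_one (matOp a v)] with s h1 h2
  rw [extM_cmp, matOp_mul', matOp_mul', h1, h2]

lemma Ap.add {t t' : ∀ s : Finset HS, SM N s} {a a' : Matrix N N BH}
    (h : Ap t a) (h' : Ap t' a') : Ap (fun s => t s + t' s) (a + a') :=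
  ⟨h.1.add h'.1, by simpa only [star_add] using h.2.add h'.2⟩

lemma Ap.neg {t : ∀ s : Finset HS, SM N s} {a : Matrix N N BH}
    (h : Ap t a) : Ap (fun s => -t s) (-a) :=
  ⟨h.1.neg, by simpa only [star_neg] using h.2.neg⟩

lemma Ap.sub {t t' : ∀ s : Finset HS, SM N s} {a a' : Matrix N N BH}
    (h : Ap t a) (h' : Ap t' a') : Ap (fun s => t s - t' s) (a - a') := by
  simpa only [sub_eq_add_neg] using h.add h'.neg

lemma Ap.mul {t t' : ∀ s : Finset HS, SM N s} {a a' : Matrix N N BH}
    (h : Ap t a) (h' : Ap t' a') : Ap (fun s => t s * t' s) (a * a') :=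
  ⟨h.1.mul h'.1, by simpa only [star_mul] using h'.2.mul h.2⟩

lemma Ap.star {t : ∀ s : Finset HS, SM N s} {a : Matrix N N BH}
    (h : Ap t a) : Ap (fun s => star (t s)) (star a) :=
  ⟨h.2, by simpa only [star_star] using h.1⟩

lemma Ap.zero : Ap (fun s => (0 : SM N s)) 0 :=
  ⟨Ap1.zero, by simpa only [star_zero] using Ap1.zero⟩

lemma Ap.one : Ap (fun s => (1 : SM N s)) 1 :=
  ⟨Ap1.one, by simpa only [star_one] using Ap1.one⟩

lemma exists_ap (a : Matrix N N BH) : ∃ t, Ap t a := by
  refine ⟨fun s => cmpM s a, Ap1.cmp a, ?_⟩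
  intro v
  filter_upwards [ev_one v, ev_one (matOp (star a) v)] with s h1 h2
  rw [extM_star, extM_cmp, star_mul, star_mul, ← extM_star, star_one, matOp_mul', matOp_mul',
    h1, h2]

lemma Ap.quasi {d : ∀ s : Finset HS, SM N s} (k : ∀ s : Finset HS, SM N s) (b1 : Ap d 0) :
    Ap (fun s => Star.star (d s) * k s * Star.star (d s)) 0 := by
  refine ⟨Ap1.mul_zero _ (by simpa only [star_zero] using b1.2), ?_⟩
  have := Ap1.mul_zero (fun s => d s * Star.star (k s)) b1.1
  simpa only [star_mul, star_star, star_zero, mul_assoc] using this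

lemma Ap.unique {t : ∀ s : Finset HS, SM N s} {a a' : Matrix N N BH}
    (h : Ap t a) (h' : Ap t a') : a = a' := h.1.unique h'.1

lemma Ap.mccoy {t r : ∀ s : Finset HS, SM N s} (k : ∀ s : Finset HS, SM N s)
    {a g : Matrix N N BH} (a1 : Ap t a) (hr : Ap r g) (a2 : a * g * a = a) :
    Ap (fun s => r s + (1 - r s * t s) * (Star.star (t s - t s * r s * t s) * k s *
      Star.star (t s - t s * r s * t s)) * (1 - t s * r s)) g := by
  have b1 := a1.sub ((a1.mul hr).mul a1)
  rw [a2, sub_self] at b1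
  have b3 := hr.add (((Ap.one.sub (hr.mul a1)).mul (b1.quasi k)).mul (Ap.one.sub (a1.mul hr)))
  rw [mul_zero, zero_mul, add_zero] at b3
  exact b3

attribute [irreducible] Ap

end

lemma star_quasi {S : Type} [Ring S] [StarRing S] (hp : ∀ a : S, star a * a = 0 → a = 0)
    (d h : S) (hh : star d * d * star d * h * (star d * d * star d) = star d * d * star d) :
    d * (star d * h * star d) * d = d := by
  have c1 : ∀ w : S, star d * d * w = 0 → d * w = 0 := by
    intro w hw
    apply hp
    rw [star_mul, mul_assoc, ← mul_assoc (star d), hw, mul_zero]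
  have c2 : ∀ w : S, w * d * star d = 0 → w * d = 0 := by
    intro w hw
    have := hp (star (w * d)) (by rw [star_star, star_mul, ← mul_assoc, hw, zero_mul])
    simpa only [star_eq_zero] using this
  have e1 := c1 (star d * h * (star d * d * star d) - star d) (by
    rw [mul_sub, ← mul_assoc (star d * d), ← mul_assoc (star d * d), hh, sub_self])
  have e2 := c2 (d * (star d * h * star d) - 1) (by
    rw [← e1]; noncomm_ring)
  rw [sub_mul, one_mul, sub_eq_zero] at e2
  exact e2

theorem variety_abstract {ι κ : Type} (𝓕 : Filter ι) (E : ι → Type) [∀ m, Ring (E m)]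
    [∀ m, StarRing (E m)] (S : ι × κ → Type) [∀ i, Ring (S i)] [∀ i, StarRing (S i)]
    (hreg : ∀ i, ∀ x : S i, ∃ y : S i, x * y * x = x)
    (hp : ∀ i, ∀ x : S i, star x * x = 0 → x = 0)
    (A : ∀ m, (∀ s, S (m, s)) → E m → Prop)
    (A1 : ∀ m, A m (fun _ => 1) 1) (A0 : ∀ m, A m (fun _ => 0) 0)
    (Aadd : ∀ m t t' a a', A m t a → A m t' a' → A m (fun s => t s + t' s) (a + a'))
    (Aneg : ∀ m t a, A m t a → A m (fun s => -t s) (-a))
    (Amul : ∀ m t t' a a', A m t a → A m t' a' → A m (fun s => t s * t' s) (a * a'))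
    (Astar : ∀ m t a, A m t a → A m (fun s => star (t s)) (star a))
    (Auniq : ∀ m t a a', A m t a → A m t a' → a = a')
    (Aex : ∀ m a, ∃ t, A m t a)
    (Amc : ∀ m (t r k : ∀ s, S (m, s)) a g, A m t a → A m r g → a * g * a = a →
      A m (fun s => r s + (1 - r s * t s) * (star (t s - t s * r s * t s) * k s *
        star (t s - t s * r s * t s)) * (1 - t s * r s)) g)
    (T0 : Subring (∀ m, E m)) (hT0 : ∀ a ∈ T0, star a ∈ T0) (R : Type) [Ring R] [StarRing R]
    (f0 : T0 →+* R) (g1 : Function.Surjective f0)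
    (g3 : ∀ a ∈ T0, ∃ g ∈ T0, ∀ᶠ m in 𝓕, a m * g m * a m = a m)
    (g4 : ∀ a : T0, f0 ⟨star a.1, hT0 _ a.2⟩ = star (f0 a))
    (g5 : ∀ a : T0, (∀ᶠ m in 𝓕, a.1 m = 0) → f0 a = 0) :
    ∃ (T : Subring ((i : ι × κ) → S i)) (f : ((i : ι × κ) → S i) → R),
          (∀ x ∈ T, star x ∈ T) ∧
          (∀ x ∈ T, ∃ y ∈ T, x * y * x = x) ∧
          f 1 = 1 ∧
          (∀ x ∈ T, ∀ y ∈ T, f (x + y) = f x + f y) ∧
          (∀ x ∈ T, ∀ y ∈ T, f (x * y) = f x * f y) ∧
          (∀ x ∈ T, f (star x) = star (f x)) ∧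
          (∀ r : R, ∃ x ∈ T, f x = r) := by
  classical
  let L : (∀ i : ι × κ, S i) → (∀ m, E m) → Prop := fun t a =>
    ∀ᶠ m in 𝓕, A m (fun s => t (m, s)) (a m)
  let T : Subring (∀ i : ι × κ, S i) :=
    { carrier := {t | ∃ a ∈ T0, L t a}
      mul_mem' := by
        rintro t t' ⟨a, ha, h⟩ ⟨a', ha', h'⟩
        refine ⟨a * a', T0.mul_mem ha ha', ?_⟩
        filter_upwards [h, h'] with m h1 h2 using Amul _ _ _ _ _ h1 h2
      one_mem' := ⟨1, T0.one_mem, Eventually.of_forall A1⟩
      add_mem' := by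
        rintro t t' ⟨a, ha, h⟩ ⟨a', ha', h'⟩
        refine ⟨a + a', T0.add_mem ha ha', ?_⟩
        filter_upwards [h, h'] with m h1 h2 using Aadd _ _ _ _ _ h1 h2
      zero_mem' := ⟨0, T0.zero_mem, Eventually.of_forall A0⟩
      neg_mem' := by
        rintro t ⟨a, ha, h⟩
        refine ⟨-a, T0.neg_mem ha, ?_⟩
        filter_upwards [h] with m h1 using Aneg _ _ _ h1 }
  let f : (∀ i : ι × κ, S i) → R := fun t =>
    if h : ∃ a ∈ T0, L t a then f0 ⟨h.choose, h.choose_spec.1⟩ else 0
  have hf : ∀ t a (ha : a ∈ T0), L t a → f t = f0 ⟨a, ha⟩ := by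
    intro t a ha h
    have h1 : ∃ a ∈ T0, L t a := ⟨a, ha, h⟩
    simp only [f, dif_pos h1]
    rw [← sub_eq_zero, ← map_sub]
    apply g5
    filter_upwards [h1.choose_spec.2, h] with m a1 a2
    exact sub_eq_zero.2 (Auniq _ _ _ _ a1 a2)
  refine ⟨T, f, ?_, ?_, ?_, ?_, ?_, ?_, ?_⟩
  · rintro t ⟨a, ha, h⟩
    refine ⟨star a, hT0 a ha, ?_⟩
    filter_upwards [h] with m h1 using Astar _ _ _ h1
  · rintro t ⟨a, ha, h⟩
    obtain ⟨g0, hg0, hg⟩ := g3 a ha
    choose r hr using fun m => Aex m (g0 m)
    let r' : ∀ i : ι × κ, S i := fun i => r i.1 i.2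
    let d := t - t * r' * t
    choose k hk using fun i : ι × κ => hreg i (star (d i) * d i * star (d i))
    have hd : ∀ i, d i * (star (d i) * k i * star (d i)) * d i = d i := fun i =>
      star_quasi (hp i) _ _ (hk i)
    refine ⟨r' + (1 - r' * t) * (star d * k * star d) * (1 - t * r'), ⟨g0, hg0, ?_⟩, ?_⟩
    · filter_upwards [h, hg] with m a1 a2
      exact Amc m _ _ (fun s => k (m, s)) _ _ a1 (hr m) a2
    · have : d * (star d * k * star d) * d = d := funext hd
      calc _ = t * r' * t + d * (star d * k * star d) * d := by simp only [d]; noncomm_ring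
        _ = t := by rw [this]; simp only [d]; abel
  · rw [hf 1 1 T0.one_mem (Eventually.of_forall A1)]
    exact map_one f0
  · rintro t ⟨a, ha, h⟩ t' ⟨a', ha', h'⟩
    rw [hf t a ha h, hf t' a' ha' h', hf (t + t') (a + a') (T0.add_mem ha ha') (by
      filter_upwards [h, h'] with m h1 h2 using Aadd _ _ _ _ _ h1 h2), ← map_add]
    rfl
  · rintro t ⟨a, ha, h⟩ t' ⟨a', ha', h'⟩
    rw [hf t a ha h, hf t' a' ha' h', hf (t * t') (a * a') (T0.mul_mem ha ha') (by
      filter_upwards [h, h'] with m h1 h2 using Amul _ _ _ _ _ h1 h2), ← map_mul]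
    rfl
  · rintro t ⟨a, ha, h⟩
    rw [hf t a ha h, hf (star t) (star a) (hT0 a ha) (by
      filter_upwards [h] with m h1 using Astar _ _ _ h1), ← g4]
  · intro q
    obtain ⟨⟨a, ha⟩, rfl⟩ := g1 q
    choose r hr using fun m => Aex m (a m)
    have h : L (fun i => r i.1 i.2) a := Eventually.of_forall hr
    exact ⟨fun i => r i.1 i.2, ⟨a, ha, h⟩, hf (fun i => r i.1 i.2) a ha h⟩

theorem variety_example : ∃ (R : Type) (_ : Ring R) (_ : StarRing R),
      (∃ (I : Type) (S : I → Type) (_ : ∀ i, Ring (S i)) (_ : ∀ i, StarRing (S i)),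
        (∀ i, IsArtinianRing (S i)) ∧
        (∀ i, ∀ x : S i, ∃ y : S i, x * y * x = x) ∧
        (∀ i, ∀ x : S i, star x * x = 0 → x = 0) ∧
        ∃ (T : Subring ((i : I) → S i)) (f : ((i : I) → S i) → R),
          (∀ x ∈ T, star x ∈ T) ∧
          (∀ x ∈ T, ∃ y ∈ T, x * y * x = x) ∧
          f 1 = 1 ∧
          (∀ x ∈ T, ∀ y ∈ T, f (x + y) = f x + f y) ∧
          (∀ x ∈ T, ∀ y ∈ T, f (x * y) = f x * f y) ∧
          (∀ x ∈ T, f (star x) = star (f x)) ∧
          (∀ r : R, ∃ x ∈ T, f x = r)) ∧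
      (∃ a : R, a ≠ 0 ∧ ∀ J : TwoSidedIdeal R, (∃ x ∈ J, x ≠ 0) → a ∈ J) ∧
      (∃ a b : R, b * a = 1 ∧ a * b ≠ 1) ∧
      ¬ ∀ a : R, ∃ u : Rˣ, a * (u : R) * a = a := by
  obtain ⟨ι, 𝓕, _, N, _, _, T0, hT0, R, _, _, f0, g1, _, g3, g4, g5, _, _, ⟨e0, e1, e2, _⟩, g7,
    g6⟩ := exists_ring
  refine ⟨R, inferInstance, inferInstance, ⟨ι × Finset HS,
    fun i => SM (N i.1) i.2, inferInstance, inferInstance, fun i => SM_artinian i.2,
    fun i => SM_regular i.2, fun i => SM_proper i.2, ?_⟩, ⟨e0, e1, e2⟩, g7, g6⟩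
  refine variety_abstract 𝓕 (fun m => Matrix (N m) (N m) BH) (fun i => SM (N i.1) i.2)
    (fun i => SM_regular i.2) (fun i => SM_proper i.2) (fun m => Ap (N := N m))
    ?_ ?_ ?_ ?_ ?_ ?_ ?_ ?_ ?_ T0 hT0 R f0 g1 g3 g4 g5
  · exact fun m => Ap.one (N := N m)
  · exact fun m => Ap.zero (N := N m)
  · exact fun m t t' a a' => Ap.add (N := N m) (t := t) (t' := t') (a := a) (a' := a')
  · exact fun m t a => Ap.neg (N := N m) (t := t) (a := a)
  · exact fun m t t' a a' => Ap.mul (N := N m) (t := t) (t' := t') (a := a) (a' := a')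
  · exact fun m t a => Ap.star (N := N m) (t := t) (a := a)
  · exact fun m t a a' => Ap.unique (N := N m) (t := t) (a := a) (a' := a')
  · exact fun m => exists_ap (N := N m)
  · exact fun m t r k a g => Ap.mccoy (N := N m) (t := t) (r := r) k (a := a) (g := g)

end Pool.Agent.H413Z
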